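import Pool.Agent.TH798.MK.Cnt

/-!
The affine group over `ZMod r`: `r - 1` linear characters and one character of degree `r - 1`.
-/

set_option autoImplicit false
open CategoryTheory

namespace Pool.Agent.TH798.MK
open Pool.Agent.W367.SN

/-- the affine group of `ZMod r` -/
@[ext]
structure Af (r : ℕ) where
  b : ZMod r
  a : (ZMod r)ˣ

namespace Af
variable {r : ℕ}

instance : One (Af r) := ⟨⟨0, 1⟩⟩
instance : Mul (Af r) := ⟨fun x y => ⟨x.b + x.a * y.b, x.a * y.a⟩⟩
instance : Inv (Af r) := ⟨fun x => ⟨-((x.a⁻¹ : (ZMod r)ˣ) : ZMod r) * x.b, x.a⁻¹⟩⟩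

theorem one_def : (1 : Af r) = ⟨0, 1⟩ := rfl
theorem mul_def (x y : Af r) : x * y = ⟨x.b + x.a * y.b, x.a * y.a⟩ := rfl
theorem inv_def (x : Af r) : x⁻¹ = ⟨-((x.a⁻¹ : (ZMod r)ˣ) : ZMod r) * x.b, x.a⁻¹⟩ := rfl

instance : Group (Af r) :=
  Group.ofLeftAxioms
    (by
      rintro ⟨a, b⟩ ⟨c, d⟩ ⟨u, v⟩
      simp only [mul_def, mul_assoc, Units.val_mul]
      congr 1
      ring)
    (by
      rintro ⟨a, b⟩
      simp [mul_def, one_def])
    (by
      rintro ⟨a, b⟩
      simp [mul_def, one_def, inv_def])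

/-- `Af r` as a product. -/
def equiv (r : ℕ) : Af r ≃ (ZMod r)ˣ × ZMod r where
  toFun x := (x.a, x.b)
  invFun x := ⟨x.2, x.1⟩
  left_inv _ := rfl
  right_inv _ := rfl

instance [NeZero r] : Fintype (Af r) := Fintype.ofEquiv _ (equiv r).symm

theorem sum_eq [NeZero r] (F : Af r → ℂ) : ∑ w, F w = ∑ a, ∑ b, F ⟨b, a⟩ := by
  rw [← Equiv.sum_comp (equiv r).symm, Fintype.sum_prod_type]
  rfl

theorem card_eq [Fact r.Prime] : Fintype.card (Af r) = (r - 1) * r := by
  rw [Fintype.card_congr (equiv r), Fintype.card_prod, ZMod.card_units, ZMod.card]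

end Af

section
variable {r : ℕ} [Fact r.Prime]

/-- the large representation -/
noncomputable def afRep (r : ℕ) [Fact r.Prime] : Af r →* Matrix (ZMod r)ˣ (ZMod r)ˣ ℂ where
  toFun w := fun x y => if x = w.a * y then
    ZMod.stdAddChar (((x⁻¹ : (ZMod r)ˣ) : ZMod r) * w.b) else 0
  map_one' := by
    ext x y
    simp only [Af.one_def, one_mul, mul_zero, AddChar.map_zero_eq_one, Matrix.one_apply]
  map_mul' v w := by
    ext x z
    rw [Matrix.mul_apply, Finset.sum_eq_single (v.a⁻¹ * x)]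
    · simp only [Af.mul_def, mul_inv_cancel_left, if_true]
      by_cases h : x = v.a * w.a * z
      · have h' : v.a⁻¹ * x = w.a * z := by rw [h, mul_assoc, inv_mul_cancel_left]
        rw [if_pos h, if_pos h', ← AddChar.map_add_eq_mul]
        congr 1
        rw [_root_.mul_inv_rev, inv_inv, Units.val_mul]
        ring
      · have h' : ¬ v.a⁻¹ * x = w.a * z := by
          intro hh
          apply h
          rw [mul_assoc, ← hh, mul_inv_cancel_left]
        rw [if_neg h, if_neg h', mul_zero]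
    · intro y _ hy
      have : ¬ x = v.a * y := by
        intro hh
        apply hy
        rw [hh, inv_mul_cancel_left]
      rw [if_neg this, zero_mul]
    · intro h; exact absurd (Finset.mem_univ _) h

/-- the large character -/
noncomputable def th (r : ℕ) [Fact r.Prime] (w : Af r) : ℂ := (afRep r w).trace

theorem th_eq (w : Af r) : th r w = if w.a = 1 then
    ∑ x : (ZMod r)ˣ, ZMod.stdAddChar (((x⁻¹ : (ZMod r)ˣ) : ZMod r) * w.b) else 0 := by
  rw [th, Matrix.trace]
  simp only [Matrix.diag_apply]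
  change ∑ x : (ZMod r)ˣ, (if x = w.a * x then
    ZMod.stdAddChar (((x⁻¹ : (ZMod r)ˣ) : ZMod r) * w.b) else 0) = _
  by_cases h : w.a = 1
  · rw [if_pos h]
    apply Finset.sum_congr rfl
    intro x _
    rw [h, one_mul, if_pos rfl]
  · rw [if_neg h]
    apply Finset.sum_eq_zero
    intro x _
    rw [if_neg]
    intro hx
    exact h (right_eq_mul.1 hx)

theorem th_one : th r 1 = ((r - 1 : ℕ) : ℂ) := by
  rw [th_eq, Af.one_def, if_pos rfl]
  simp only [mul_zero, AddChar.map_zero_eq_one, Finset.sum_const, Finset.card_univ,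
    ZMod.card_units, nsmul_eq_mul, mul_one]

theorem th_mem : th r ∈ IrrC (Af r) := by
  classical
  have h2 : (fun w => (afRep r w).trace) = th r := rfl
  rw [← h2]
  apply mem_irr_of_matrix
  change ∑ w, th r w * th r w⁻¹ = _
  rw [Af.sum_eq, Finset.sum_eq_single 1, Af.card_eq]
  · have h3 : ∀ b : ZMod r, th r ⟨b, 1⟩ * th r (⟨b, 1⟩ : Af r)⁻¹ =
        ∑ x : (ZMod r)ˣ, ∑ y : (ZMod r)ˣ, ZMod.stdAddChar (b *
          (((x⁻¹ : (ZMod r)ˣ) : ZMod r) - ((y⁻¹ : (ZMod r)ˣ) : ZMod r))) := by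
      intro b
      rw [th_eq, th_eq, Af.inv_def, if_pos rfl, if_pos (inv_one), Finset.sum_mul_sum]
      apply Finset.sum_congr rfl
      intro x _
      apply Finset.sum_congr rfl
      intro y _
      rw [← AddChar.map_add_eq_mul]
      congr 1
      simp only [inv_one, Units.val_one]
      ring
    simp only [h3]
    rw [Finset.sum_comm]
    have h4 : ∀ x : (ZMod r)ˣ, ∑ b : ZMod r, ∑ y : (ZMod r)ˣ, (ZMod.stdAddChar (b *
          (((x⁻¹ : (ZMod r)ˣ) : ZMod r) - ((y⁻¹ : (ZMod r)ˣ) : ZMod r))) : ℂ) = r := by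
      intro x
      rw [Finset.sum_comm, Finset.sum_eq_single x]
      · simp only [sub_self, mul_zero, AddChar.map_zero_eq_one, Finset.sum_const,
          Finset.card_univ, ZMod.card, nsmul_eq_mul, mul_one]
      · intro y _ hy
        rw [AddChar.sum_mulShift _ (ZMod.isPrimitive_stdAddChar r), if_neg]
        · simp
        · rw [sub_eq_zero]
          intro h
          exact hy (inv_injective (Units.ext h)).symm
      · intro h; exact absurd (Finset.mem_univ _) h
    rw [Finset.sum_congr rfl (fun x _ => h4 x), Finset.sum_const, Finset.card_univ,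
      ZMod.card_units]
    push_cast
    ring
  · intro a _ ha
    apply Finset.sum_eq_zero
    intro b _
    rw [th_eq, if_neg ha, zero_mul]
  · intro h; exact absurd (Finset.mem_univ _) h

/-- linear characters -/
noncomputable def li (l : (ZMod r)ˣ →* ℂˣ) (w : Af r) : ℂ := ((l w.a : ℂˣ) : ℂ)

theorem li_one (l : (ZMod r)ˣ →* ℂˣ) : li l (1 : Af r) = 1 := by
  rw [li, Af.one_def, map_one]; rfl

theorem li_mem (l : (ZMod r)ˣ →* ℂˣ) : li l ∈ IrrC (Af r) := by
  classical
  let ρ : Af r →* Matrix (Fin 1) (Fin 1) ℂ :=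
    { toFun := fun w => Matrix.diagonal (fun _ => li l w)
      map_one' := by simp only [li_one]; exact Matrix.diagonal_one
      map_mul' := fun x y => by
        rw [Matrix.diagonal_mul_diagonal]
        congr 1
        funext _
        rw [li, Af.mul_def, map_mul]; rfl }
  have h1 : ∀ w, (ρ w).trace = li l w := fun w => by
    change (Matrix.diagonal (fun _ : Fin 1 => li l w)).trace = _
    simp
  have h2 : (fun w => (ρ w).trace) = li l := funext h1
  rw [← h2]
  apply mem_irr_of_matrix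
  simp only [h1]
  have h3 : ∀ w : Af r, li l w * li l w⁻¹ = 1 := by
    intro w
    rw [li, li, Af.inv_def, ← Units.val_mul, ← map_mul, mul_inv_cancel, map_one, Units.val_one]
  simp [h3]

theorem li_inj (l l' : (ZMod r)ˣ →* ℂˣ) (h : (li l : Af r → ℂ) = li l') : l = l' := by
  ext a
  have := congrFun h ⟨0, a⟩
  exact this

open Classical in
theorem af_irr (hr : 2 < r) : ∃ L : Finset (Af r → ℂ), L.card = r - 1 ∧
    irrF (Af r) = insert (th r) L ∧ th r ∉ L ∧ ∀ χ ∈ L, dg χ = 1 := by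
  have hne : NeZero ((Monoid.exponent (ZMod r)ˣ : ℕ) : ℂ) :=
    ⟨by exact_mod_cast Monoid.exponent_ne_zero_of_finite⟩
  have hen : HasEnoughRootsOfUnity ℂ (Monoid.exponent (ZMod r)ˣ) := inferInstance
  have hfin : Fintype ((ZMod r)ˣ →* ℂˣ) := Fintype.ofFinite _
  have hcard : Fintype.card ((ZMod r)ˣ →* ℂˣ) = r - 1 := by
    have := CommGroup.card_monoidHom_of_hasEnoughRootsOfUnity (ZMod r)ˣ ℂ
    rw [Nat.card_eq_fintype_card, Nat.card_eq_fintype_card, ZMod.card_units] at this
    exact this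
  let L : Finset (Af r → ℂ) := Finset.univ.image (fun l : (ZMod r)ˣ →* ℂˣ => (li l : Af r → ℂ))
  have hL : L.card = r - 1 := by
    rw [Finset.card_image_of_injective _ (fun l l' h => li_inj l l' h), Finset.card_univ, hcard]
  have hdg : ∀ χ ∈ L, dg χ = 1 := by
    intro χ hχ
    obtain ⟨l, _, rfl⟩ := Finset.mem_image.1 hχ
    apply dg_of
    rw [li_one]; simp
  have hdt : dg (th r) = r - 1 := dg_of th_one
  have hnot : th r ∉ L := by
    intro h
    have := hdg _ h
    omega
  refine ⟨L, hL, ?_, hnot, hdg⟩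
  have hsub : insert (th r) L ⊆ irrF (Af r) := by
    intro χ hχ
    rcases Finset.mem_insert.1 hχ with rfl | h
    · exact mem_irrF.2 th_mem
    · obtain ⟨l, _, rfl⟩ := Finset.mem_image.1 h
      exact mem_irrF.2 (li_mem l)
  symm
  apply Finset.Subset.antisymm hsub
  intro χ hχ
  by_contra hn
  have hs := sum_sq_nat (G := Af r)
  rw [Af.card_eq] at hs
  have h1 : insert χ (insert (th r) L) ⊆ irrF (Af r) := by
    intro ψ hψ
    rcases Finset.mem_insert.1 hψ with rfl | h
    · exact hχ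
    · exact hsub h
  have h2 := Finset.sum_le_sum_of_subset (f := fun χ => dg χ ^ 2) h1
  rw [hs, Finset.sum_insert hn, Finset.sum_insert hnot, hdt,
    Finset.sum_congr rfl (fun χ hχ => by rw [hdg χ hχ])] at h2
  simp only [one_pow, Finset.sum_const, smul_eq_mul, mul_one, hL] at h2
  have h3 := (dg_spec (mem_irrF.1 hχ)).2
  have h4 : 1 ≤ dg χ ^ 2 := Nat.one_le_pow _ _ h3
  obtain ⟨m, hm⟩ : ∃ m, r = m + 1 := ⟨r - 1, by omega⟩
  subst hm
  rw [Nat.add_sub_cancel] at h2
  nlinarith

end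

section
variable {G H : Type} [Group G] [Group H] [Fintype G] [Fintype H]

open Classical in
theorem prod_exact (p : ℕ) (k : ZMod p) : (cF p k (G × H)).card =
    ∑ β ∈ irrF H, ((irrF G).filter (fun α => pm k (dg α * dg β))).card := by
  have h1 : cF p k (G × H) = (irrF H).biUnion
      (fun β => ((irrF G).filter (fun α => pm k (dg α * dg β))).image (fun α => outer α β)) := by
    ext χ
    rw [mem_cF, Finset.mem_biUnion]
    constructor
    · rintro ⟨h1, h2⟩
      obtain ⟨α, hα, β, hβ, rfl⟩ := outer_surj h1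
      rw [dg_outer hα hβ] at h2
      exact ⟨β, mem_irrF.2 hβ, Finset.mem_image.2 ⟨α, Finset.mem_filter.2 ⟨mem_irrF.2 hα, h2⟩, rfl⟩⟩
    · rintro ⟨β, hβ, h⟩
      obtain ⟨α, hα, rfl⟩ := Finset.mem_image.1 h
      obtain ⟨h3, h4⟩ := Finset.mem_filter.1 hα
      refine ⟨outer_mem (mem_irrF.1 h3) (mem_irrF.1 hβ), ?_⟩
      rw [dg_outer (mem_irrF.1 h3) (mem_irrF.1 hβ)]
      exact h4
  rw [h1, Finset.card_biUnion]
  · apply Finset.sum_congr rfl
    intro β hβ
    apply Finset.card_image_of_injOn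
    intro α hα α' hα' h
    have ha := mem_irrF.1 (Finset.mem_filter.1 (Finset.mem_coe.1 hα)).1
    have ha' := mem_irrF.1 (Finset.mem_filter.1 (Finset.mem_coe.1 hα')).1
    exact (outer_inj ha (mem_irrF.1 hβ) ha' (mem_irrF.1 hβ) h).1
  · intro β hβ β' hβ' hne
    refine Finset.disjoint_left.2 ?_
    intro χ h1 h2
    obtain ⟨α, hα, rfl⟩ := Finset.mem_image.1 h1
    obtain ⟨α', hα', h3⟩ := Finset.mem_image.1 h2
    have ha := mem_irrF.1 (Finset.mem_filter.1 hα).1
    have ha' := mem_irrF.1 (Finset.mem_filter.1 hα').1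
    exact hne (outer_inj ha (mem_irrF.1 (Finset.mem_coe.1 hβ)) ha'
      (mem_irrF.1 (Finset.mem_coe.1 hβ')) h3.symm).2

theorem prod_af {p r : ℕ} [Fact p.Prime] [Fact r.Prime] (hr : 2 < r) (hpr : ¬ p ∣ r - 1)
    (k : ZMod p) : (cF p k (G × Af r)).card =
    (cF p (k * ((r - 1 : ℕ) : ZMod p)⁻¹) G).card + (r - 1) * (cF p k G).card := by
  classical
  obtain ⟨L, hL, hirr, hnot, hdg⟩ := af_irr hr
  rw [prod_exact, hirr, Finset.sum_insert hnot]
  congr 1
  · rw [dg_of th_one]
    congr 1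
    ext α
    rw [Finset.mem_filter, mem_cF, mem_irrF, pm_mul hpr]
  · rw [Finset.sum_congr rfl (fun β hβ => by rw [hdg β hβ]), Finset.sum_const, hL, smul_eq_mul]
    congr 2
    ext α
    rw [Finset.mem_filter, mem_cF, mem_irrF, mul_one]

end

end Pool.Agent.TH798.MK
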