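import Pool.Agent.TH798.MK.Wrp

/-!
Counting irreducible characters by their degree modulo `p` up to sign.
-/

set_option autoImplicit false
open CategoryTheory

namespace Pool.Agent.TH798.MK
open Pool.Agent.W367.SN

/-- the number of irreducible complex characters of `G` of degree `≡ ±k (mod p)` -/
noncomputable def cnt (p : ℕ) (k : ZMod p) (G : Type) [Group G] : ℕ :=
  Nat.card {χ : G → ℂ // χ ∈ IrrC G ∧
    ∃ n : ℕ, χ 1 = n ∧ ((n : ZMod p) = k ∨ (n : ZMod p) = -k)}

/-- the congruence up to sign -/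
def pm {p : ℕ} (k : ZMod p) (n : ℕ) : Prop := (n : ZMod p) = k ∨ (n : ZMod p) = -k

open Classical in
/-- the finite set version of `cnt` -/
noncomputable def cF (p : ℕ) (k : ZMod p) (G : Type) [Group G] [Fintype G] : Finset (G → ℂ) :=
  (irrF G).filter (fun χ => pm k (dg χ))

theorem mem_cF {p : ℕ} {k : ZMod p} {G : Type} [Group G] [Fintype G] {χ : G → ℂ} :
    χ ∈ cF p k G ↔ χ ∈ IrrC G ∧ pm k (dg χ) := by
  classical
  rw [cF, Finset.mem_filter, mem_irrF]

theorem cnt_eq (p : ℕ) (k : ZMod p) (G : Type) [Group G] [Fintype G] :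
    cnt p k G = (cF p k G).card := by
  rw [cnt]
  apply Nat.subtype_card
  intro χ
  rw [mem_cF]
  constructor
  · rintro ⟨h1, h2⟩
    exact ⟨h1, dg χ, (dg_spec h1).1, h2⟩
  · rintro ⟨h1, n, hn, h2⟩
    refine ⟨h1, ?_⟩
    rw [dg_of hn]; exact h2

theorem dg_outer {G H : Type} [Group G] [Group H] [Fintype G] [Fintype H] {α : G → ℂ} {β : H → ℂ}
    (hα : α ∈ IrrC G) (hβ : β ∈ IrrC H) : dg (outer α β) = dg α * dg β := by
  apply dg_of
  change α 1 * β 1 = _
  rw [(dg_spec hα).1, (dg_spec hβ).1]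
  push_cast
  rfl

theorem pm_mul {p q : ℕ} [Fact p.Prime] (hq : ¬ p ∣ q) (k : ZMod p) (n : ℕ) :
    pm k (n * q) ↔ pm (k * (q : ZMod p)⁻¹) n := by
  have hq0 : (q : ZMod p) ≠ 0 := by
    rwa [Ne, ZMod.natCast_eq_zero_iff]
  unfold pm
  push_cast
  rw [← neg_mul, eq_mul_inv_iff_mul_eq₀ hq0, eq_mul_inv_iff_mul_eq₀ hq0]

section bounds
variable {G H : Type} [Group G] [Group H] [Fintype G] [Fintype H]

open Classical in
theorem prod_lower {p q : ℕ} [Fact p.Prime] (hq : ¬ p ∣ q) (k : ZMod p) :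
    (cF p (k * (q : ZMod p)⁻¹) G).card * ((irrF H).filter (fun χ => dg χ = q)).card ≤
      (cF p k (G × H)).card := by
  rw [← Finset.card_product]
  apply Finset.card_le_card_of_injOn (fun x => outer x.1 x.2)
  · rintro ⟨α, β⟩ h
    obtain ⟨h1, h2⟩ := Finset.mem_product.1 (Finset.mem_coe.1 h)
    obtain ⟨h3, h4⟩ := mem_cF.1 h1
    obtain ⟨h5, h6⟩ := Finset.mem_filter.1 h2
    rw [mem_irrF] at h5
    apply Finset.mem_coe.2
    apply mem_cF.2
    refine ⟨outer_mem h3 h5, ?_⟩
    change pm k (dg (outer α β))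
    rw [dg_outer h3 h5]
    change dg β = q at h6
    rw [h6, pm_mul hq]
    exact h4
  · rintro ⟨α, β⟩ h ⟨α', β'⟩ h' heq
    obtain ⟨h1, h2⟩ := Finset.mem_product.1 (Finset.mem_coe.1 h)
    obtain ⟨h1', h2'⟩ := Finset.mem_product.1 (Finset.mem_coe.1 h')
    have := outer_inj (mem_cF.1 h1).1 (mem_irrF.1 (Finset.mem_filter.1 h2).1)
      (mem_cF.1 h1').1 (mem_irrF.1 (Finset.mem_filter.1 h2').1) heq
    exact Prod.ext this.1 this.2

open Classical in
theorem prod_upper {p q : ℕ} [Fact p.Prime] (hq : ¬ p ∣ q) (k : ZMod p) :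
    (cF p k (G × H)).card ≤
      (cF p (k * (q : ZMod p)⁻¹) G).card * ((irrF H).filter (fun χ => dg χ = q)).card +
      Fintype.card G * ((irrF H).filter (fun χ => ¬ dg χ = q)).card := by
  have h1 : cF p k (G × H) ⊆
      ((cF p (k * (q : ZMod p)⁻¹) G) ×ˢ ((irrF H).filter (fun χ => dg χ = q))).image
        (fun x => outer x.1 x.2) ∪
      ((irrF G) ×ˢ ((irrF H).filter (fun χ => ¬ dg χ = q))).image (fun x => outer x.1 x.2) := by
    intro χ hχ
    obtain ⟨h1, h2⟩ := mem_cF.1 hχ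
    obtain ⟨α, hα, β, hβ, rfl⟩ := outer_surj h1
    rw [dg_outer hα hβ] at h2
    rw [Finset.mem_union]
    by_cases h3 : dg β = q
    · left
      apply Finset.mem_image.2
      refine ⟨(α, β), ?_, rfl⟩
      apply Finset.mem_product.2
      refine ⟨mem_cF.2 ⟨hα, ?_⟩, Finset.mem_filter.2 ⟨mem_irrF.2 hβ, h3⟩⟩
      rw [h3, pm_mul hq] at h2
      exact h2
    · right
      apply Finset.mem_image.2
      refine ⟨(α, β), ?_, rfl⟩
      apply Finset.mem_product.2
      exact ⟨mem_irrF.2 hα, Finset.mem_filter.2 ⟨mem_irrF.2 hβ, h3⟩⟩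
  refine (Finset.card_le_card h1).trans ?_
  refine (Finset.card_union_le _ _).trans ?_
  apply Nat.add_le_add
  · refine Finset.card_image_le.trans ?_
    rw [Finset.card_product]
  · refine Finset.card_image_le.trans ?_
    rw [Finset.card_product]
    exact Nat.mul_le_mul_right _ card_irrF_le

theorem cF_le_of_equiv {p : ℕ} (k : ZMod p) (e : G ≃* H) :
    (cF p k H).card ≤ (cF p k G).card := by
  apply Finset.card_le_card_of_injOn (fun χ => χ ∘ e)
  · intro χ hχ
    obtain ⟨h1, h2⟩ := mem_cF.1 (Finset.mem_coe.1 hχ)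
    apply Finset.mem_coe.2
    apply mem_cF.2
    refine ⟨irr_comp e h1, ?_⟩
    have : dg (χ ∘ e) = dg χ := by
      apply dg_of
      change χ (e 1) = _
      rw [map_one]
      exact (dg_spec h1).1
    change pm k (dg (χ ∘ e))
    rw [this]; exact h2
  · intro χ _ ψ _ h
    funext x
    have := congrFun h (e.symm x)
    simpa using this

theorem cF_equiv {p : ℕ} (k : ZMod p) (e : G ≃* H) :
    (cF p k G).card = (cF p k H).card :=
  le_antisymm (cF_le_of_equiv k e.symm) (cF_le_of_equiv k e)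

end bounds

section sylow
variable {G H : Type} [Group G] [Group H]

theorem exists_sylow_prod [Finite G] [Finite H] {p : ℕ} [Fact p.Prime] (P : Sylow p G)
    (hH : ¬ p ∣ Nat.card H) :
    ∃ R : Sylow p (G × H), (R : Subgroup (G × H)) = (P : Subgroup G).prod ⊥ := by
  have h1 : Nat.card ((P : Subgroup G).prod (⊥ : Subgroup H)) =
      p ^ (Nat.card (G × H)).factorization p := by
    rw [Nat.card_congr (Subgroup.prodEquiv (P : Subgroup G) (⊥ : Subgroup H)).toEquiv,
      Nat.card_prod, Nat.card_prod, Nat.factorization_mul Nat.card_pos.ne' Nat.card_pos.ne',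
      Finsupp.add_apply, Nat.factorization_eq_zero_of_not_dvd hH, add_zero, Subgroup.card_bot,
      mul_one]
    exact Sylow.card_eq_multiplicity P
  exact ⟨Sylow.ofCard _ h1, Sylow.coe_ofCard _ h1⟩

theorem normalizer_prod_bot (P : Subgroup G) :
    Subgroup.normalizer ((P.prod (⊥ : Subgroup H) : Subgroup (G × H)) : Set (G × H)) =
      (Subgroup.normalizer (P : Set G)).prod ⊤ := by
  ext ⟨g, h⟩
  rw [Subgroup.mem_prod, Subgroup.mem_normalizer_iff, Subgroup.mem_normalizer_iff]
  simp only [Subgroup.mem_top, and_true]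
  constructor
  · intro hh x
    have := hh (x, 1)
    simpa [Subgroup.mem_prod] using this
  · rintro hh ⟨x, y⟩
    simp only [Subgroup.mem_prod, Subgroup.mem_bot, Prod.mk_mul_mk, Prod.inv_mk]
    rw [hh x, mul_inv_eq_one, mul_eq_left]

noncomputable def normEquiv (P : Subgroup G) (R : Subgroup (G × H))
    (hR : R = P.prod ⊥) :
    Subgroup.normalizer (R : Set (G × H)) ≃* Subgroup.normalizer (P : Set G) × H :=
  (MulEquiv.subgroupCongr (by rw [hR]; exact normalizer_prod_bot P)).trans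
    ((Subgroup.prodEquiv (Subgroup.normalizer (P : Set G)) (⊤ : Subgroup H)).trans
      ((MulEquiv.refl _).prodCongr Subgroup.topEquiv))

end sylow

end Pool.Agent.TH798.MK
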