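import Pool.Agent.TH798.MK.Main

/-!
From equal numbers in the residue classes to bijections, and back.
-/

set_option autoImplicit false
open CategoryTheory

namespace Pool.Agent.TH798.MK
open Pool.Agent.W367.SN

/-- irreducible characters of degree prime to `p` -/
def IrP (p : ℕ) (G : Type) [Group G] : Set (G → ℂ) :=
  {χ | χ ∈ IrrC G ∧ ∃ n : ℕ, χ 1 = n ∧ ¬ p ∣ n}

open Classical in
/-- the class `{k, -k}` -/
noncomputable def cl {p : ℕ} (k : ZMod p) : Finset (ZMod p) := {k, -k}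

theorem cl_eq {p : ℕ} {a b : ZMod p} : cl a = cl b ↔ a = b ∨ a = -b := by
  classical
  constructor
  · intro h
    have : a ∈ cl b := by rw [← h, cl]; simp
    rw [cl] at this
    simpa using this
  · rintro (rfl | rfl)
    · rfl
    · rw [cl, cl, neg_neg, Finset.pair_comm]

section
variable {G : Type} [Group G]

/-- the class of the degree -/
noncomputable def fcl (p : ℕ) (χ : IrP p G) : Finset (ZMod p) := cl ((dg χ.1 : ℕ) : ZMod p)

theorem notdvd_of_pm {p : ℕ} {k : ZMod p} (hk : k ≠ 0) {n : ℕ} (h : pm k n) : ¬ p ∣ n := by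
  intro hd
  have h0 : (n : ZMod p) = 0 := (ZMod.natCast_eq_zero_iff _ _).2 hd
  rcases h with h | h
  · exact hk (by rw [← h, h0])
  · rw [h0] at h
    exact hk (neg_eq_zero.1 h.symm)

theorem fib_card [Finite G] {p : ℕ} {k : ZMod p} (hk : k ≠ 0) :
    Nat.card {χ : IrP p G // fcl p χ = cl k} = cnt p k G := by
  rw [cnt]
  apply Nat.card_congr
  have : Fintype G := Fintype.ofFinite G
  refine
    { toFun := fun x => ⟨x.1.1, x.1.2.1, dg x.1.1, (dg_spec x.1.2.1).1, cl_eq.1 x.2⟩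
      invFun := fun y => ⟨⟨y.1, y.2.1, dg y.1, (dg_spec y.2.1).1, ?_⟩, ?_⟩
      left_inv := fun x => rfl
      right_inv := fun y => rfl }
  · obtain ⟨χ, h1, n, hn, h2⟩ := y
    have h3 := dg_of hn
    change ¬ p ∣ dg χ
    rw [h3]
    exact notdvd_of_pm hk h2
  · obtain ⟨χ, h1, n, hn, h2⟩ := y
    have h3 := dg_of hn
    change cl ((dg χ : ℕ) : ZMod p) = cl k
    rw [h3]
    exact cl_eq.2 h2

instance [Finite G] (p : ℕ) : Finite (IrP p G) := by
  have : Fintype G := Fintype.ofFinite G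
  have h : (IrrC G).Finite := irr_finite
  exact (h.subset (fun χ hχ => hχ.1)).to_subtype

theorem fcl_class [Finite G] {p : ℕ} (χ : IrP p G) : ∃ k : ZMod p, k ≠ 0 ∧ fcl p χ = cl k := by
  refine ⟨((dg χ.1 : ℕ) : ZMod p), ?_, rfl⟩
  obtain ⟨χ, h1, n, hn, h2⟩ := χ
  change ((dg χ : ℕ) : ZMod p) ≠ 0
  rw [dg_of hn, Ne, ZMod.natCast_eq_zero_iff]
  exact h2

theorem card_sum [Finite G] (p : ℕ) [Fact p.Prime] :
    Nat.card (IrP p G) = ∑ z : Finset (ZMod p), Nat.card {χ : IrP p G // fcl p χ = z} := by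
  rw [← Nat.card_sigma]
  exact Nat.card_congr (Equiv.sigmaFiberEquiv (fcl (G := G) p)).symm

end

section
variable {G N : Type} [Group G] [Group N] [Finite G] [Finite N] {p : ℕ} [Fact p.Prime]

theorem fib_le (h : ∀ k : ZMod p, k ≠ 0 → cnt p k G ≤ cnt p k N) (z : Finset (ZMod p)) :
    Nat.card {χ : IrP p G // fcl p χ = z} ≤ Nat.card {χ : IrP p N // fcl p χ = z} := by
  by_cases hz : ∃ k : ZMod p, k ≠ 0 ∧ z = cl k
  · obtain ⟨k, hk, rfl⟩ := hz
    rw [fib_card hk, fib_card hk]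
    exact h k hk
  · have : IsEmpty {χ : IrP p G // fcl p χ = z} := ⟨fun x => by
      obtain ⟨k, hk, hx⟩ := fcl_class x.1
      exact hz ⟨k, hk, by rw [← x.2, hx]⟩⟩
    rw [Nat.card_of_isEmpty]
    exact Nat.zero_le _

omit [Fact p.Prime] in
/-- bijections from equalities -/
theorem bij_of_fib
    (h : ∀ z : Finset (ZMod p),
      Nat.card {χ : IrP p G // fcl p χ = z} = Nat.card {χ : IrP p N // fcl p χ = z}) :
    ∃ e : IrP p G ≃ IrP p N, ∀ χ, fcl p (e χ) = fcl p χ := by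
  have h1 : ∀ z : Finset (ZMod p),
      Nonempty ({χ : IrP p G // fcl p χ = z} ≃ {χ : IrP p N // fcl p χ = z}) :=
    fun z => Finite.card_eq.1 (h z)
  let E : ∀ z : Finset (ZMod p),
      {χ : IrP p G // fcl p χ = z} ≃ {χ : IrP p N // fcl p χ = z} := fun z => (h1 z).some
  refine ⟨(Equiv.sigmaFiberEquiv (fcl (G := G) p)).symm.trans
    ((Equiv.sigmaCongrRight E).trans (Equiv.sigmaFiberEquiv (fcl (G := N) p))), ?_⟩
  intro χ
  exact (E (fcl p χ) ⟨χ, rfl⟩).2

theorem cnt_of_bij (e : IrP p G ≃ IrP p N) (he : ∀ χ, fcl p (e χ) = fcl p χ) {k : ZMod p}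
    (hk : k ≠ 0) : cnt p k G = cnt p k N := by
  rw [← fib_card hk, ← fib_card hk]
  apply Nat.card_congr
  refine e.subtypeEquiv (fun χ => ?_)
  rw [he]

theorem fib_eq_of_le (h : ∀ k : ZMod p, k ≠ 0 → cnt p k G ≤ cnt p k N)
    (hM : Nat.card (IrP p G) = Nat.card (IrP p N)) (z : Finset (ZMod p)) :
    Nat.card {χ : IrP p G // fcl p χ = z} = Nat.card {χ : IrP p N // fcl p χ = z} := by
  rw [card_sum, card_sum] at hM
  exact (Finset.sum_eq_sum_iff_of_le (fun z _ => fib_le h z)).1 hM z (Finset.mem_univ z)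

end

end Pool.Agent.TH798.MK
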