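import Pool.Agent.TH798.MK.Cnt

/-!
The amplification step: an approximate inequality for one residue class gives the exact
inequality for the class divided by a prime.
-/

set_option autoImplicit false
open CategoryTheory

namespace Pool.Agent.TH798.MK
open Pool.Agent.W367.SN

/-- approximate one-sided inequality (with sign `ε`) -/
def Weak (p : ℕ) (ε : ℝ) (k : ZMod p) : Prop :=
  ∀ δ : ℝ, 0 < δ → ∃ C : ℝ, ∀ (G : Type) [Group G] [Finite G] (P : Sylow p G),
    ε * ((cnt p k G : ℝ) - cnt p k (Subgroup.normalizer ((P : Subgroup G) : Set G))) ≤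
      δ * Nat.card G + C

/-- exact one-sided inequality (with sign `ε`) -/
def Exact (p : ℕ) (ε : ℝ) (k : ZMod p) : Prop :=
  ∀ (G : Type) [Group G] [Finite G] (P : Sylow p G),
    ε * ((cnt p k G : ℝ) - cnt p k (Subgroup.normalizer ((P : Subgroup G) : Set G))) ≤ 0

theorem Exact.weak {p : ℕ} {ε : ℝ} {k : ZMod p} (h : Exact p ε k) : Weak p ε k := by
  intro δ hδ
  refine ⟨0, fun G _ _ P => (h G P).trans ?_⟩
  positivity

theorem num_aux {a b x y L s g n m q C h ε M : ℝ} (hε : ε = 1 ∨ ε = -1)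
    (hab : 1 ≤ ε * (a - b)) (hx1 : a * L ≤ x) (hx2 : x ≤ a * L + g * s)
    (hy1 : b * L ≤ y) (hy2 : y ≤ b * L + n * s) (hn : n ≤ g) (hg : 1 ≤ g) (hs : 0 ≤ s)
    (hL : 0 ≤ L) (hM : m ^ 2 ≤ M) (hq : 0 < q) (hm : 1 ≤ m) (hh : h = M * q)
    (hmany : M ≤ m + q * L) (hfew : s ≤ q * m)
    (hC : ε * (x - y) ≤ 1 / (2 * q ^ 2 * g) * (g * h) + C)
    (hbig : 2 + 2 * q ^ 2 * g + 2 * q * |C| < m) : False := by
  have h1 : L - g * s ≤ ε * (x - y) := by
    rcases hε with rfl | rfl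
    · nlinarith [mul_le_mul_of_nonneg_right hab hL, mul_le_mul_of_nonneg_right hn hs]
    · nlinarith [mul_le_mul_of_nonneg_right hab hL, mul_le_mul_of_nonneg_right hn hs]
  have h2 : 1 / (2 * q ^ 2 * g) * (g * h) = M / (2 * q) := by
    rw [hh]; field_simp
  rw [h2] at hC
  have h3 : q * L ≤ q * (g * s) + q * (M / (2 * q)) + q * C := by
    nlinarith
  have h4 : q * (M / (2 * q)) = M / 2 := by field_simp
  rw [h4] at h3
  have h5 : q * (g * s) ≤ q ^ 2 * g * m := by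
    have := mul_le_mul_of_nonneg_left hfew (show (0:ℝ) ≤ q * g by positivity)
    nlinarith
  have h6 : M ≤ 2 * m + 2 * (q ^ 2 * g * m) + 2 * q * C := by linarith
  have h7 : 2 * q * C ≤ 2 * q * |C| * m := by
    have h8 : C ≤ |C| := le_abs_self C
    have h9 : (0:ℝ) ≤ 2 * q * |C| := by positivity
    nlinarith [mul_le_mul_of_nonneg_left h8 (show (0:ℝ) ≤ 2 * q by positivity),
      mul_le_mul_of_nonneg_left hm h9]
  have h10 : m ^ 2 ≤ m * (2 + 2 * q ^ 2 * g + 2 * q * |C|) := by nlinarith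
  have h11 : m * (2 + 2 * q ^ 2 * g + 2 * q * |C|) < m * m :=
    mul_lt_mul_of_pos_left hbig (by linarith)
  nlinarith

theorem step {p q : ℕ} [Fact p.Prime] (hq : q.Prime) (hpq : ¬ p ∣ q) {ε : ℝ}
    (hε : ε = 1 ∨ ε = -1) {k : ZMod p} (hw : Weak p ε k) :
    Exact p ε (k * (q : ZMod p)⁻¹) := by
  classical
  intro G _ _ P
  by_contra hcon
  push Not at hcon
  have : Fintype G := Fintype.ofFinite G
  set N := Subgroup.normalizer ((P : Subgroup G) : Set G) with hN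
  have : Fintype N := Fintype.ofFinite N
  have hab : 1 ≤ ε * (((cnt p (k * (q : ZMod p)⁻¹) G : ℕ) : ℝ) -
      (cnt p (k * (q : ZMod p)⁻¹) N : ℕ)) := by
    rcases hε with rfl | rfl
    · have h1 : (cnt p (k * (q : ZMod p)⁻¹) N) < (cnt p (k * (q : ZMod p)⁻¹) G) := by
        have : ((cnt p (k * (q : ZMod p)⁻¹) N : ℕ) : ℝ) < (cnt p (k * (q : ZMod p)⁻¹) G : ℕ) := by
          linarith
        exact_mod_cast this
      have h2 : ((cnt p (k * (q : ZMod p)⁻¹) N : ℕ) : ℝ) + 1 ≤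
          (cnt p (k * (q : ZMod p)⁻¹) G : ℕ) := by exact_mod_cast h1
      linarith
    · have h1 : (cnt p (k * (q : ZMod p)⁻¹) G) < (cnt p (k * (q : ZMod p)⁻¹) N) := by
        have : ((cnt p (k * (q : ZMod p)⁻¹) G : ℕ) : ℝ) < (cnt p (k * (q : ZMod p)⁻¹) N : ℕ) := by
          linarith
        exact_mod_cast this
      have h2 : ((cnt p (k * (q : ZMod p)⁻¹) G : ℕ) : ℝ) + 1 ≤
          (cnt p (k * (q : ZMod p)⁻¹) N : ℕ) := by exact_mod_cast h1
      linarith
  have hg0 : 0 < Fintype.card G := Fintype.card_pos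
  have hg : (1 : ℝ) ≤ (Fintype.card G : ℝ) := by exact_mod_cast hg0
  have hq0 : (0 : ℝ) < q := by exact_mod_cast hq.pos
  obtain ⟨C, hC⟩ := hw (1 / (2 * (q : ℝ) ^ 2 * (Fintype.card G : ℝ))) (by positivity)
  obtain ⟨t, ht⟩ := exists_nat_gt (2 + 2 * (q : ℝ) ^ 2 * (Fintype.card G : ℝ) + 2 * q * |C|)
  have hp1 : 1 ≤ p := (Fact.out : p.Prime).one_lt.le
  set m : ℕ := p * t + 1 with hm
  have hmt : t ≤ m := by nlinarith
  have hm1 : 1 ≤ m := by omega
  have hbig : 2 + 2 * (q : ℝ) ^ 2 * (Fintype.card G : ℝ) + 2 * q * |C| < m :=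
    ht.trans_le (by exact_mod_cast hmt)
  have : NeZero m := ⟨by omega⟩
  have : NeZero q := ⟨hq.pos.ne'⟩
  let A := Multiplicative (ZMod m)
  let Q := Multiplicative (ZMod q)
  have hA : Fintype.card A = m := by simp [A, ZMod.card]
  have hQ : Fintype.card Q = q := by simp [Q, ZMod.card]
  have hQp : (Fintype.card Q).Prime := by rw [hQ]; exact hq
  have hcard := card_wr (A := A) (Q := Q)
  have hmany := many (A := A) (Q := Q) hQp
  have hfew := few (A := A) (Q := Q) hQp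
  rw [hA, hQ] at hcard hmany hfew
  have hHp : ¬ p ∣ Nat.card (A ≀ᵣ Q) := by
    rw [Nat.card_eq_fintype_card, hcard]
    intro hd
    rcases (Fact.out : p.Prime).dvd_mul.1 hd with h1 | h1
    · have h2 := (Fact.out : p.Prime).dvd_of_dvd_pow h1
      rw [hm] at h2
      have h3 : p ∣ 1 := (Nat.dvd_add_right (Dvd.intro _ rfl)).1 h2
      exact (Fact.out : p.Prime).one_lt.ne' (Nat.dvd_one.1 h3)
    · exact hpq h1
  obtain ⟨R, hR⟩ := exists_sylow_prod (H := A ≀ᵣ Q) P hHp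
  have hC' := hC (G × (A ≀ᵣ Q)) R
  have : Fintype (Subgroup.normalizer ((R : Subgroup (G × (A ≀ᵣ Q))) : Set (G × (A ≀ᵣ Q)))) :=
    Fintype.ofFinite _
  have hRN : cnt p k (Subgroup.normalizer ((R : Subgroup (G × (A ≀ᵣ Q))) : Set (G × (A ≀ᵣ Q)))) =
      (cF p k (N × (A ≀ᵣ Q))).card := by
    rw [cnt_eq]
    exact cF_equiv k (normEquiv (P : Subgroup G) (R : Subgroup (G × (A ≀ᵣ Q))) hR)
  rw [hRN, cnt_eq p k (G × (A ≀ᵣ Q)), Nat.card_eq_fintype_card, Fintype.card_prod] at hC'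
  rw [cnt_eq, cnt_eq] at hab
  have l1 := prod_lower (G := G) (H := A ≀ᵣ Q) hpq k
  have u1 := prod_upper (G := G) (H := A ≀ᵣ Q) hpq k
  have l2 := prod_lower (G := N) (H := A ≀ᵣ Q) hpq k
  have u2 := prod_upper (G := N) (H := A ≀ᵣ Q) hpq k
  have hNG : Fintype.card N ≤ Fintype.card G :=
    Fintype.card_le_of_injective _ (Subtype.val_injective)
  have hM : m ^ 2 ≤ m ^ q := Nat.pow_le_pow_right hm1 hq.two_le
  apply num_aux (a := ((cF p (k * (q : ZMod p)⁻¹) G).card : ℝ))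
    (b := ((cF p (k * (q : ZMod p)⁻¹) N).card : ℝ))
    (x := ((cF p k (G × (A ≀ᵣ Q))).card : ℝ)) (y := ((cF p k (N × (A ≀ᵣ Q))).card : ℝ))
    (L := (((irrF (A ≀ᵣ Q)).filter (fun χ => dg χ = q)).card : ℝ))
    (s := (((irrF (A ≀ᵣ Q)).filter (fun χ => ¬ dg χ = q)).card : ℝ))
    (g := (Fintype.card G : ℝ)) (n := (Fintype.card N : ℝ)) (m := (m : ℝ)) (q := (q : ℝ))
    (C := C) (h := (Fintype.card (A ≀ᵣ Q) : ℝ)) (ε := ε) (M := ((m ^ q : ℕ) : ℝ))
    hε hab
  · exact_mod_cast l1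
  · exact_mod_cast u1
  · exact_mod_cast l2
  · exact_mod_cast u2
  · exact_mod_cast hNG
  · exact hg
  · positivity
  · positivity
  · exact_mod_cast hM
  · exact hq0
  · exact_mod_cast hm1
  · rw [hcard]; push_cast; ring
  · exact_mod_cast hmany
  · exact_mod_cast hfew
  · have e1 : ((Fintype.card G * Fintype.card (A ≀ᵣ Q) : ℕ) : ℝ) =
        (Fintype.card G : ℝ) * (Fintype.card (A ≀ᵣ Q) : ℝ) := by push_cast; rfl
    rw [← e1]
    exact hC'
  · exact hbig

theorem step_nat {p : ℕ} [Fact p.Prime] {ε : ℝ} (hε : ε = 1 ∨ ε = -1) :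
    ∀ n : ℕ, 2 ≤ n → ¬ p ∣ n → ∀ k : ZMod p, Weak p ε k → Exact p ε (k * (n : ZMod p)⁻¹) := by
  intro n
  induction n using Nat.strong_induction_on with
  | _ n ih =>
    intro hn hpn k hk
    obtain ⟨q, hq, hqn⟩ := Nat.exists_prime_and_dvd (show n ≠ 1 by omega)
    obtain ⟨r, rfl⟩ := hqn
    have hpq : ¬ p ∣ q := fun h => hpn (h.mul_right r)
    have hpr : ¬ p ∣ r := fun h => hpn (h.mul_left q)
    have h1 := step hq hpq hε hk
    by_cases hr : r = 1
    · subst hr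
      rw [mul_one]; exact h1
    · have hr0 : r ≠ 0 := by rintro rfl; simp at hn
      have h2 := ih r (by
        have := hq.one_lt
        calc r = 1 * r := (one_mul r).symm
          _ < q * r := Nat.mul_lt_mul_of_pos_right this (Nat.pos_of_ne_zero hr0))
        (by omega) hpr _ h1.weak
      have e : k * ((q * r : ℕ) : ZMod p)⁻¹ = k * (q : ZMod p)⁻¹ * (r : ZMod p)⁻¹ := by
        push_cast
        rw [mul_inv, mul_assoc]
      rw [e]; exact h2

theorem all_classes {p : ℕ} [Fact p.Prime] {ε : ℝ} (hε : ε = 1 ∨ ε = -1) {k j : ZMod p}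
    (hk : k ≠ 0) (hj : j ≠ 0) (hw : Weak p ε k) : Exact p ε j := by
  have hp := (Fact.out : p.Prime)
  have h1 : (((k * j⁻¹).val + p : ℕ) : ZMod p) = k * j⁻¹ := by
    push_cast
    rw [ZMod.natCast_zmod_val, CharP.cast_eq_zero, add_zero]
  have h2 : ¬ p ∣ (k * j⁻¹).val + p := by
    rw [← ZMod.natCast_eq_zero_iff, h1]
    exact mul_ne_zero hk (inv_ne_zero hj)
  have h3 := step_nat hε ((k * j⁻¹).val + p) (by have := hp.two_le; omega) h2 k hw
  rw [h1, mul_inv, inv_inv, ← mul_assoc, mul_inv_cancel₀ hk, one_mul] at h3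
  exact h3

end Pool.Agent.TH798.MK
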