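import Pool.Agent.TH798.MK.WrC

/-!
Doubling the modulus of a congruence with the wreath product `G ≀ C_2`.
-/

set_option autoImplicit false
open CategoryTheory

namespace Pool.Agent.TH798.MK
open Pool.Agent.W367.SN

/-- the number of irreducible characters with given square of the degree -/
noncomputable def fz (p : ℕ) (G : Type) [Group G] [Fintype G] (z : (ZMod p)ˣ) : ℤ :=
  ((aF p (z : ZMod p) G).card : ℤ)

theorem mem_aF {p : ℕ} {x : ZMod p} {G : Type} [Group G] [Fintype G] {χ : G → ℂ} :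
    χ ∈ aF p x G ↔ χ ∈ IrrC G ∧ ((dg χ : ℕ) : ZMod p) ^ 2 = x := by
  classical
  rw [aF, Finset.mem_filter, mem_irrF]

section
variable {M : Type} [Group M] [Fintype M] {p : ℕ} [Fact p.Prime]

theorem four_ne (hp : p % 4 = 3) : (4 : ZMod p) ≠ 0 := by
  intro h
  have h1 : ((4 : ℕ) : ZMod p) = 0 := by exact_mod_cast h
  rw [ZMod.natCast_eq_zero_iff] at h1
  have h2 : p ∣ 2 ^ 2 := h1
  have h3 := (Fact.out : p.Prime).dvd_of_dvd_pow h2
  have h4 := (Nat.prime_dvd_prime_iff_eq (Fact.out : p.Prime) Nat.prime_two).1 h3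
  omega

theorem sq_eq_of_four (hp : p % 4 = 3) (w : (ZMod p)ˣ) (d : ZMod p) :
    4 * d ^ 4 = 4 * (w : ZMod p) ^ 4 ↔ d ^ 2 = (w : ZMod p) ^ 2 := by
  constructor
  · intro h
    have h1 : d ^ 4 = (w : ZMod p) ^ 4 := mul_left_cancel₀ (four_ne hp) h
    have h2 : (d ^ 2) ^ 2 = ((w : ZMod p) ^ 2) ^ 2 := by
      rw [← pow_mul, ← pow_mul]; exact h1
    rcases sq_eq_sq_iff_eq_or_eq_neg.1 h2 with h3 | h3
    · exact h3
    · exfalso
      have h4 : IsSquare (-1 : ZMod p) := by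
        refine ⟨d * ((w⁻¹ : (ZMod p)ˣ) : ZMod p), ?_⟩
        have h5 : (w : ZMod p) * ((w⁻¹ : (ZMod p)ˣ) : ZMod p) = 1 := Units.mul_inv w
        calc (-1 : ZMod p) = -((w : ZMod p) * ((w⁻¹ : (ZMod p)ˣ) : ZMod p)) ^ 2 := by
              rw [h5]; ring
          _ = (-(w : ZMod p) ^ 2) * (((w⁻¹ : (ZMod p)ˣ) : ZMod p)) ^ 2 := by ring
          _ = _ := by rw [← h3]; ring
      exact (ZMod.exists_sq_eq_neg_one_iff.1 h4) hp
  · intro h
    have : d ^ 4 = (d ^ 2) ^ 2 := by ring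
    rw [this, h]; ring

open Classical in
theorem ident (hp : p % 4 = 3) (w : (ZMod p)ˣ) (v : (ZMod p)ˣ)
    (hv : (v : ZMod p) = 4 * (w : ZMod p) ^ 4) :
    2 * fz p (Wr M) v + fz p M (w ^ 2) =
      (∑ z : (ZMod p)ˣ, fz p M z * fz p M (w ^ 4 * z⁻¹)) +
      4 * ∑ z ∈ (Finset.univ : Finset (ZMod p)ˣ).filter (fun z => z ^ 2 = v), fz p M z := by
  have h := wr_count (M := M) p (4 * (w : ZMod p) ^ 4)
  have e1 : ((irrF M).filter (fun α => 4 * ((dg α : ℕ) : ZMod p) ^ 4 = 4 * (w : ZMod p) ^ 4)) =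
      aF p (((w ^ 2 : (ZMod p)ˣ) : ZMod p)) M := by
    ext χ
    rw [Finset.mem_filter, mem_irrF, mem_aF, sq_eq_of_four hp, Units.val_pow_eq_pow_val]
  have e2 : (((irrF M) ×ˢ (irrF M)).filter
      (fun y => 4 * ((dg y.1 : ℕ) : ZMod p) ^ 2 * ((dg y.2 : ℕ) : ZMod p) ^ 2 =
        4 * (w : ZMod p) ^ 4)).card =
      ∑ z : (ZMod p)ˣ, (aF p (z : ZMod p) M).card *
        (aF p (((w ^ 4 * z⁻¹ : (ZMod p)ˣ) : ZMod p)) M).card := by
    have e3 : (((irrF M) ×ˢ (irrF M)).filter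
        (fun y => 4 * ((dg y.1 : ℕ) : ZMod p) ^ 2 * ((dg y.2 : ℕ) : ZMod p) ^ 2 =
          4 * (w : ZMod p) ^ 4)) =
        (Finset.univ : Finset (ZMod p)ˣ).biUnion (fun z => aF p (z : ZMod p) M ×ˢ
          aF p (((w ^ 4 * z⁻¹ : (ZMod p)ˣ) : ZMod p)) M) := by
      ext ⟨α, β⟩
      simp only [Finset.mem_filter, Finset.mem_product, Finset.mem_biUnion, Finset.mem_univ,
        true_and, mem_irrF, mem_aF]
      constructor
      · rintro ⟨⟨h1, h2⟩, h3⟩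
        have h4 : ((dg α : ℕ) : ZMod p) ^ 2 * ((dg β : ℕ) : ZMod p) ^ 2 = (w : ZMod p) ^ 4 := by
          apply mul_left_cancel₀ (four_ne hp)
          rw [← h3]; ring
        have h5 : ((dg α : ℕ) : ZMod p) ^ 2 ≠ 0 := by
          intro h6
          rw [h6, zero_mul] at h4
          exact pow_ne_zero 4 (Units.ne_zero w) h4.symm
        refine ⟨Units.mk0 _ h5, ⟨h1, rfl⟩, h2, ?_⟩
        rw [Units.val_mul, Units.val_pow_eq_pow_val, ← h4]
        have h7 := Units.mul_inv (Units.mk0 _ h5)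
        rw [Units.val_mk0] at h7
        linear_combination (-((dg β : ℕ) : ZMod p) ^ 2) * h7
      · rintro ⟨z, ⟨h1, h2⟩, h3, h4⟩
        refine ⟨⟨h1, h3⟩, ?_⟩
        rw [h2, h4, Units.val_mul, Units.val_pow_eq_pow_val]
        have h7 := Units.mul_inv z
        linear_combination (4 * (w : ZMod p) ^ 4) * h7
    rw [e3, Finset.card_biUnion]
    · apply Finset.sum_congr rfl
      intro z _
      rw [Finset.card_product]
    · intro z _ z' _ hne
      refine Finset.disjoint_left.2 ?_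
      rintro ⟨α, β⟩ h1 h2
      have h3 := (mem_aF.1 (Finset.mem_product.1 h1).1).2
      have h4 := (mem_aF.1 (Finset.mem_product.1 h2).1).2
      exact hne (Units.ext (h3.symm.trans h4))
  have e4 : ((irrF M).filter (fun α => ((dg α : ℕ) : ZMod p) ^ 4 = 4 * (w : ZMod p) ^ 4)).card =
      ∑ z ∈ (Finset.univ : Finset (ZMod p)ˣ).filter (fun z => z ^ 2 = v),
        (aF p (z : ZMod p) M).card := by
    have e3 : ((irrF M).filter (fun α => ((dg α : ℕ) : ZMod p) ^ 4 = 4 * (w : ZMod p) ^ 4)) =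
        ((Finset.univ : Finset (ZMod p)ˣ).filter (fun z => z ^ 2 = v)).biUnion
          (fun z => aF p (z : ZMod p) M) := by
      ext α
      simp only [Finset.mem_filter, Finset.mem_biUnion, Finset.mem_univ,
        true_and, mem_irrF, mem_aF]
      constructor
      · rintro ⟨h1, h2⟩
        have h5 : ((dg α : ℕ) : ZMod p) ^ 2 ≠ 0 := by
          intro h6
          have h7 : ((dg α : ℕ) : ZMod p) ^ 4 = (((dg α : ℕ) : ZMod p) ^ 2) ^ 2 := by ring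
          rw [h7, h6] at h2
          have := mul_ne_zero (four_ne hp) (pow_ne_zero 4 (Units.ne_zero w))
          apply this
          rw [← h2]; ring
        refine ⟨Units.mk0 _ h5, ?_, h1, rfl⟩
        apply Units.ext
        rw [Units.val_pow_eq_pow_val, Units.val_mk0, hv, ← h2]; ring
      · rintro ⟨z, hz, h1, h2⟩
        refine ⟨h1, ?_⟩
        have h7 : ((dg α : ℕ) : ZMod p) ^ 4 = (((dg α : ℕ) : ZMod p) ^ 2) ^ 2 := by ring
        rw [h7, h2, ← hv, ← hz, Units.val_pow_eq_pow_val]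
    rw [e3, Finset.card_biUnion]
    intro z _ z' _ hne
    refine Finset.disjoint_left.2 ?_
    intro α h1 h2
    exact hne (Units.ext ((mem_aF.1 h1).2.symm.trans (mem_aF.1 h2).2))
  rw [e1, e2, e4, ← hv] at h
  simp only [fz]
  exact_mod_cast h

end

/-- doubling the modulus -/
theorem lift_mod {U : Type} [CommGroup U] [Fintype U] (f g : U → ℤ) (F G' : ℤ) (s c : U)
    (Z : Finset U) (e : ℕ) (he : 1 ≤ e) (hfg : ∀ z, (2 : ℤ) ^ e ∣ f z - g z)
    (hF : (2 : ℤ) ^ e ∣ F - G')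
    (h1 : 2 * F + f s = (∑ z, f z * f (c * z⁻¹)) + 4 * ∑ z ∈ Z, f z)
    (h2 : 2 * G' + g s = (∑ z, g z * g (c * z⁻¹)) + 4 * ∑ z ∈ Z, g z) :
    (2 : ℤ) ^ (e + 1) ∣ f s - g s := by
  choose u hu using hfg
  obtain ⟨t, ht⟩ := hF
  have hf : ∀ z, f z = g z + 2 ^ e * u z := fun z => by linarith [hu z]
  have hsym : ∑ z, u z * g (c * z⁻¹) = ∑ z, g z * u (c * z⁻¹) := by
    rw [← Equiv.sum_comp ((Equiv.inv U).trans (Equiv.mulLeft c))]
    apply Finset.sum_congr rfl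
    intro z _
    simp only [Equiv.trans_apply, Equiv.inv_apply, Equiv.coe_mulLeft, mul_inv_rev, inv_inv]
    rw [mul_comm z c⁻¹, mul_inv_cancel_left, mul_comm]
  have h3 : ∑ z, f z * f (c * z⁻¹) = (∑ z, g z * g (c * z⁻¹)) +
      2 ^ (e + 1) * (∑ z, g z * u (c * z⁻¹)) + 2 ^ e * 2 ^ e * ∑ z, u z * u (c * z⁻¹) := by
    have h4 : ∀ z, f z * f (c * z⁻¹) = g z * g (c * z⁻¹) + 2 ^ e * (g z * u (c * z⁻¹)) +
        2 ^ e * (u z * g (c * z⁻¹)) + 2 ^ e * 2 ^ e * (u z * u (c * z⁻¹)) := by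
      intro z
      rw [hf z, hf (c * z⁻¹)]; ring
    simp only [h4, Finset.sum_add_distrib, ← Finset.mul_sum]
    rw [hsym]; ring
  have h5 : ∑ z ∈ Z, f z = (∑ z ∈ Z, g z) + 2 ^ e * ∑ z ∈ Z, u z := by
    simp only [hf, Finset.sum_add_distrib, ← Finset.mul_sum]
  obtain ⟨e', rfl⟩ : ∃ e', e = e' + 1 := ⟨e - 1, by omega⟩
  refine ⟨(∑ z, g z * u (c * z⁻¹)) + 2 ^ e' * (∑ z, u z * u (c * z⁻¹)) + 2 * (∑ z ∈ Z, u z) - t,
    ?_⟩
  have h6 : f s - g s = ((∑ z, f z * f (c * z⁻¹)) - ∑ z, g z * g (c * z⁻¹)) +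
      4 * ((∑ z ∈ Z, f z) - ∑ z ∈ Z, g z) - 2 * (F - G') := by linarith
  rw [h6, h3, h5, ht]
  ring

section sylow
variable {G : Type} [Group G]

/-- The base part of the wreath product over a subgroup. -/
def bsub (N : Subgroup G) : Subgroup (Wr G) where
  carrier := {w | w.e = false ∧ w.a ∈ N ∧ w.b ∈ N}
  one_mem' := ⟨rfl, N.one_mem, N.one_mem⟩
  mul_mem' := by
    rintro ⟨a, b, e⟩ ⟨c, d, f⟩ ⟨h0, h1, h2⟩ ⟨h0', h3, h4⟩
    cases e
    · cases f
      · exact ⟨rfl, N.mul_mem h1 h3, N.mul_mem h2 h4⟩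
      · cases h0'
    · cases h0
  inv_mem' := by
    rintro ⟨a, b, e⟩ ⟨h0, h1, h2⟩
    cases e
    · exact ⟨rfl, N.inv_mem h1, N.inv_mem h2⟩
    · cases h0

/-- The wreath product of a subgroup, as a subgroup. -/
def wsub' (N : Subgroup G) : Subgroup (Wr G) where
  carrier := {w | w.a ∈ N ∧ w.b ∈ N}
  one_mem' := ⟨N.one_mem, N.one_mem⟩
  mul_mem' := by
    rintro ⟨a, b, e⟩ ⟨c, d, f⟩ ⟨h1, h2⟩ ⟨h3, h4⟩
    cases e
    · exact ⟨N.mul_mem h1 h3, N.mul_mem h2 h4⟩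
    · exact ⟨N.mul_mem h1 h4, N.mul_mem h2 h3⟩
  inv_mem' := by
    rintro ⟨a, b, e⟩ ⟨h1, h2⟩
    cases e
    · exact ⟨N.inv_mem h1, N.inv_mem h2⟩
    · exact ⟨N.inv_mem h2, N.inv_mem h1⟩

/-- the wreath product of a subgroup -/
def wiso' (N : Subgroup G) : wsub' N ≃* Wr N where
  toFun w := ⟨⟨w.1.a, w.2.1⟩, ⟨w.1.b, w.2.2⟩, w.1.e⟩
  invFun w := ⟨⟨w.a, w.b, w.e⟩, w.a.2, w.b.2⟩
  left_inv _ := rfl
  right_inv _ := rfl
  map_mul' := by
    rintro ⟨⟨a, b, e⟩, ha, hb⟩ ⟨⟨c, d, f⟩, hc, hd⟩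
    cases e <;> rfl

theorem normalizer_bsub (P : Subgroup G) :
    Subgroup.normalizer ((bsub P : Subgroup (Wr G)) : Set (Wr G)) =
      wsub' (Subgroup.normalizer (P : Set G)) := by
  ext ⟨a, b, e⟩
  rw [Subgroup.mem_normalizer_iff]
  change _ ↔ (a ∈ Subgroup.normalizer (P : Set G) ∧ b ∈ Subgroup.normalizer (P : Set G))
  rw [Subgroup.mem_normalizer_iff, Subgroup.mem_normalizer_iff]
  cases e
  · constructor
    · intro h
      constructor
      · intro x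
        have := h ⟨x, 1, false⟩
        rw [Wr.inv_ff, Wr.mul_ff, Wr.mul_ff] at this
        change (_ ∧ x ∈ P ∧ 1 ∈ P) ↔ (_ ∧ a * x * a⁻¹ ∈ P ∧ b * 1 * b⁻¹ ∈ P) at this
        simpa using this
      · intro x
        have := h ⟨1, x, false⟩
        rw [Wr.inv_ff, Wr.mul_ff, Wr.mul_ff] at this
        change (_ ∧ 1 ∈ P ∧ x ∈ P) ↔ (_ ∧ a * 1 * a⁻¹ ∈ P ∧ b * x * b⁻¹ ∈ P) at this
        simpa using this
    · rintro ⟨h1, h2⟩ ⟨x, y, f⟩
      rw [Wr.inv_ff, Wr.mul_ff]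
      cases f
      · rw [Wr.mul_ff]
        change (_ ∧ x ∈ P ∧ y ∈ P) ↔ (_ ∧ a * x * a⁻¹ ∈ P ∧ b * y * b⁻¹ ∈ P)
        rw [h1 x, h2 y]
      · rw [Wr.mul_tt]
        constructor
        · rintro ⟨h, _⟩; cases h
        · rintro ⟨h, _⟩; cases h
  · constructor
    · intro h
      constructor
      · intro x
        have := h ⟨1, x, false⟩
        rw [Wr.inv_tt, Wr.mul_tt, Bool.not_false, Wr.mul_tt] at this
        change (_ ∧ 1 ∈ P ∧ x ∈ P) ↔ (_ ∧ a * x * a⁻¹ ∈ P ∧ b * 1 * b⁻¹ ∈ P) at this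
        simpa using this
      · intro x
        have := h ⟨x, 1, false⟩
        rw [Wr.inv_tt, Wr.mul_tt, Bool.not_false, Wr.mul_tt] at this
        change (_ ∧ x ∈ P ∧ 1 ∈ P) ↔ (_ ∧ a * 1 * a⁻¹ ∈ P ∧ b * x * b⁻¹ ∈ P) at this
        simpa using this
    · rintro ⟨h1, h2⟩ ⟨x, y, f⟩
      rw [Wr.inv_tt, Wr.mul_tt]
      cases f
      · rw [Bool.not_false, Wr.mul_tt]
        change (_ ∧ x ∈ P ∧ y ∈ P) ↔ (_ ∧ a * y * a⁻¹ ∈ P ∧ b * x * b⁻¹ ∈ P)
        rw [h1 y, h2 x]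
        constructor
        · rintro ⟨_, h3, h4⟩; exact ⟨rfl, h4, h3⟩
        · rintro ⟨_, h3, h4⟩; exact ⟨rfl, h4, h3⟩
      · rw [Bool.not_true, Wr.mul_ff]
        constructor
        · rintro ⟨h, _⟩; cases h
        · rintro ⟨h, _⟩; cases h

/-- the base part is a square -/
def bequiv (N : Subgroup G) : bsub N ≃ N × N where
  toFun w := (⟨w.1.a, w.2.2.1⟩, ⟨w.1.b, w.2.2.2⟩)
  invFun y := ⟨⟨y.1, y.2, false⟩, rfl, y.1.2, y.2.2⟩
  left_inv := by
    rintro ⟨⟨a, b, e⟩, h0, h1, h2⟩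
    cases e
    · rfl
    · cases h0
  right_inv _ := rfl

theorem exists_sylow_wr [Fintype G] {p : ℕ} [Fact p.Prime] (hp2 : p ≠ 2) (P : Sylow p G) :
    ∃ R : Sylow p (Wr G), (R : Subgroup (Wr G)) = bsub (P : Subgroup G) := by
  have hc : Nat.card G ≠ 0 := Nat.card_pos.ne'
  have h1 : Nat.card (bsub (P : Subgroup G)) =
      p ^ (Nat.card (Wr G)).factorization p := by
    rw [Nat.card_congr (bequiv (P : Subgroup G)), Nat.card_prod,
      Nat.card_eq_fintype_card (α := Wr G), Wr.card_eq, ← Nat.card_eq_fintype_card (α := G),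
      Nat.factorization_mul two_ne_zero (pow_ne_zero 2 hc), Finsupp.add_apply,
      Nat.factorization_eq_zero_of_not_dvd (n := 2) (p := p) (by
        intro h
        exact hp2 ((Nat.prime_dvd_prime_iff_eq (Fact.out : p.Prime) Nat.prime_two).1 h)),
      zero_add, Nat.factorization_pow, Finsupp.smul_apply, smul_eq_mul,
      Sylow.card_eq_multiplicity P]
    ring
  exact ⟨Sylow.ofCard _ h1, Sylow.coe_ofCard _ h1⟩

end sylow

end Pool.Agent.TH798.MK
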