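import Pool.Agent.TH798.MK.Par
import Pool.Agent.TH798.MK.Aff
import Pool.Agent.TH798.MK.Fib

/-!
For `p ≡ 3 (mod 4)` the parity of one class count suffices.
-/

set_option autoImplicit false
open CategoryTheory

namespace Pool.Agent.TH798.MK
open Pool.Agent.W367.SN

/-- congruence modulo `2 ^ e` in every class -/
def Par (p e : ℕ) : Prop :=
  ∀ (G : Type) [Group G] [Finite G] (P : Sylow p G) (k : ZMod p), k ≠ 0 →
    (2 : ℤ) ^ e ∣ (cnt p k G : ℤ) - cnt p k (Subgroup.normalizer ((P : Subgroup G) : Set G))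

section
variable {p : ℕ} [Fact p.Prime]

theorem cnt_fz (w : (ZMod p)ˣ) (G : Type) [Group G] [Fintype G] :
    ((cnt p (w : ZMod p) G : ℕ) : ℤ) = fz p G (w ^ 2) := by
  rw [cnt_eq, fz]
  congr 2
  ext χ
  rw [mem_cF, mem_aF, Units.val_pow_eq_pow_val, sq_eq_sq_iff_eq_or_eq_neg]
  rfl

theorem fz_nonsq {z : (ZMod p)ˣ} (hz : ¬ ∃ w : (ZMod p)ˣ, z = w ^ 2) (G : Type) [Group G]
    [Fintype G] : fz p G z = 0 := by
  rw [fz]
  have : aF p (z : ZMod p) G = ∅ := by
    apply Finset.eq_empty_of_forall_notMem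
    intro χ hχ
    obtain ⟨_, h2⟩ := mem_aF.1 hχ
    apply hz
    have h3 : ((dg χ : ℕ) : ZMod p) ≠ 0 := by
      intro h0
      rw [h0] at h2
      apply Units.ne_zero z
      rw [← h2]; ring
    refine ⟨Units.mk0 _ h3, Units.ext ?_⟩
    rw [Units.val_pow_eq_pow_val, Units.val_mk0, h2]
  rw [this]; simp

theorem par_fz {e : ℕ} (h : Par p e) {G : Type} [Group G] [Fintype G] (P : Sylow p G)
    [Fintype (Subgroup.normalizer ((P : Subgroup G) : Set G))] (z : (ZMod p)ˣ) :
    (2 : ℤ) ^ e ∣ fz p G z - fz p (Subgroup.normalizer ((P : Subgroup G) : Set G)) z := by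
  by_cases hz : ∃ w : (ZMod p)ˣ, z = w ^ 2
  · obtain ⟨w, rfl⟩ := hz
    rw [← cnt_fz, ← cnt_fz]
    exact h G P w (Units.ne_zero w)
  · rw [fz_nonsq hz, fz_nonsq hz, sub_self]
    exact dvd_zero _

theorem cnt_equiv (k : ZMod p) {G H : Type} [Group G] [Group H] [Finite G] [Finite H]
    (e : G ≃* H) : cnt p k G = cnt p k H := by
  have : Fintype G := Fintype.ofFinite G
  have : Fintype H := Fintype.ofFinite H
  rw [cnt_eq, cnt_eq, cF_equiv k e]

noncomputable def normEquivWr {G : Type} [Group G] (P : Subgroup G) (R : Subgroup (Wr G))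
    (hR : R = bsub P) :
    Subgroup.normalizer (R : Set (Wr G)) ≃* Wr (Subgroup.normalizer (P : Set G)) :=
  (MulEquiv.subgroupCongr (by rw [hR]; exact normalizer_bsub P)).trans (wiso' _)

theorem par_step (hp : p % 4 = 3) {e : ℕ} (he : 1 ≤ e) (h : Par p e) : Par p (e + 1) := by
  classical
  intro G _ _ P k hk
  have : Fintype G := Fintype.ofFinite G
  set N := Subgroup.normalizer ((P : Subgroup G) : Set G) with hN
  have : Fintype N := Fintype.ofFinite N
  have h2 : (2 : ZMod p) ≠ 0 := by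
    intro h0
    apply four_ne hp
    have : (4 : ZMod p) = 2 * 2 := by norm_num
    rw [this, h0, zero_mul]
  let w : (ZMod p)ˣ := Units.mk0 k hk
  let u : (ZMod p)ˣ := Units.mk0 2 h2 * w ^ 2
  have hv : ((u ^ 2 : (ZMod p)ˣ) : ZMod p) = 4 * (w : ZMod p) ^ 4 := by
    simp only [u, Units.val_pow_eq_pow_val, Units.val_mul, Units.val_mk0]
    ring
  have i1 := ident (M := G) hp w (u ^ 2) hv
  have i2 := ident (M := N) hp w (u ^ 2) hv
  obtain ⟨R, hR⟩ := exists_sylow_wr (by rintro rfl; omega) P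
  have hF : (2 : ℤ) ^ e ∣ fz p (Wr G) (u ^ 2) - fz p (Wr N) (u ^ 2) := by
    have h3 := h (Wr G) R (u : ZMod p) (Units.ne_zero u)
    have : Finite (Subgroup.normalizer ((R : Subgroup (Wr G)) : Set (Wr G))) := inferInstance
    rw [cnt_equiv (p := p) (u : ZMod p) (normEquivWr (P : Subgroup G) (R : Subgroup (Wr G)) hR),
      cnt_fz, cnt_fz] at h3
    exact h3
  have h4 := lift_mod (fz p G) (fz p N) _ _ (w ^ 2) (w ^ 4) _ e he (fun z => par_fz h P z) hF i1 i2
  rw [← cnt_fz, ← cnt_fz] at h4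
  exact h4

theorem par_all (hp : p % 4 = 3) (h : Par p 1) (e : ℕ) (he : 1 ≤ e) : Par p e := by
  induction e, he using Nat.le_induction with
  | base => exact h
  | succ n hn ih => exact par_step hp hn ih

theorem par_exact (hp : p % 4 = 3) (h : Par p 1) (G : Type) [Group G] [Finite G] (P : Sylow p G)
    (k : ZMod p) (hk : k ≠ 0) :
    cnt p k G = cnt p k (Subgroup.normalizer ((P : Subgroup G) : Set G)) := by
  set d : ℤ := (cnt p k G : ℤ) - cnt p k (Subgroup.normalizer ((P : Subgroup G) : Set G)) with hd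
  have h1 := par_all hp h (d.natAbs + 1) (by omega) G P k hk
  have h2 : |d| < (2 : ℤ) ^ (d.natAbs + 1) := by
    rw [Int.abs_eq_natAbs]
    have h3 : d.natAbs < 2 ^ (d.natAbs + 1) :=
      (Nat.lt_two_pow_self).trans (Nat.pow_lt_pow_right (by norm_num) (by omega))
    exact_mod_cast h3
  have h3 : d = 0 := Int.eq_zero_of_abs_lt_dvd h1 h2
  rw [hd, sub_eq_zero] at h3
  exact_mod_cast h3

theorem cnt_neg (k : ZMod p) (G : Type) [Group G] : cnt p (-k) G = cnt p k G := by
  rw [cnt, cnt]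
  apply Nat.card_congr
  apply Equiv.subtypeEquivRight
  intro χ
  simp only [neg_neg, or_comm]

theorem par_of_one {k : ZMod p} (hk : k ≠ 0)
    (h : ∀ (G : Type) [Group G] [Finite G] (P : Sylow p G),
      cnt p k G ≡ cnt p k (Subgroup.normalizer ((P : Subgroup G) : Set G)) [MOD 2]) :
    Par p 1 := by
  intro G _ _ P j hj
  have : Fintype G := Fintype.ofFinite G
  set N := Subgroup.normalizer ((P : Subgroup G) : Set G) with hN
  have : Fintype N := Fintype.ofFinite N
  rw [pow_one]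
  by_cases hkj : k * j⁻¹ = -1
  · have h1 : k = -j := by
      have := congrArg (· * j) hkj
      simpa [mul_assoc, inv_mul_cancel₀ hj] using this
    have h2 := h G P
    rw [h1, cnt_neg, cnt_neg] at h2
    have h3 := (Nat.modEq_iff_dvd.1 h2.symm)
    exact_mod_cast h3
  · have ha : k * j⁻¹ + 1 ≠ 0 := fun h0 => hkj (eq_neg_of_add_eq_zero_left h0)
    obtain ⟨r, hr, hrp, hra⟩ := Nat.forall_exists_prime_gt_and_eq_mod
      (isUnit_iff_ne_zero.2 ha) (max 2 p)
    have hr2 : 2 < r := lt_of_le_of_lt (le_max_left _ _) hr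
    have hrp' : p < r := lt_of_le_of_lt (le_max_right _ _) hr
    have : Fact r.Prime := ⟨hrp⟩
    have hc : ((r - 1 : ℕ) : ZMod p) = k * j⁻¹ := by
      rw [Nat.cast_sub (by omega), hra]; simp
    have hpr : ¬ p ∣ r - 1 := by
      rw [← ZMod.natCast_eq_zero_iff, hc]
      exact mul_ne_zero hk (inv_ne_zero hj)
    have hH : ¬ p ∣ Nat.card (Af r) := by
      rw [Nat.card_eq_fintype_card, Af.card_eq]
      intro hd
      rcases (Fact.out : p.Prime).dvd_mul.1 hd with h1 | h1
      · exact hpr h1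
      · have := (Nat.prime_dvd_prime_iff_eq (Fact.out : p.Prime) hrp).1 h1
        omega
    obtain ⟨R, hR⟩ := exists_sylow_prod (H := Af r) P hH
    have h1 := h (G × Af r) R
    have : Fintype (Subgroup.normalizer ((R : Subgroup (G × Af r)) : Set (G × Af r))) :=
      Fintype.ofFinite _
    rw [cnt_equiv (p := p) k (normEquiv (P : Subgroup G) (R : Subgroup (G × Af r)) hR),
      cnt_eq, cnt_eq, prod_af hr2 hpr, prod_af hr2 hpr, hc] at h1
    have h2 : k * (k * j⁻¹)⁻¹ = j := by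
      rw [mul_inv, inv_inv, ← mul_assoc, mul_inv_cancel₀ hk, one_mul]
    rw [h2] at h1
    have hodd : (r - 1) % 2 = 0 := by
      have := hrp.eq_two_or_odd
      omega
    obtain ⟨t, ht⟩ : ∃ t, r - 1 = 2 * t := ⟨(r - 1) / 2, by omega⟩
    rw [ht] at h1
    rw [cnt_eq, cnt_eq]
    have h3 := Nat.modEq_iff_dvd.1 h1.symm
    obtain ⟨s, hs⟩ := h3
    push_cast at hs
    refine ⟨s - t * ((cF p k G).card : ℤ) + t * ((cF p k N).card : ℤ), ?_⟩
    linear_combination hs

end

end Pool.Agent.TH798.MK
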