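import Pool.Agent.W367.SN.Irr

/-!
Irreducible characters of direct products, the sum of the squares of the degrees.
-/

set_option autoImplicit false
open CategoryTheory

namespace Pool.Agent.TH798.MK
open Pool.Agent.W367.SN

section prod
variable {G H : Type} [Group G] [Group H]

/-- the outer product of two functions -/
def outer (α : G → ℂ) (β : H → ℂ) : G × H → ℂ := fun x => α x.1 * β x.2

variable [Fintype G] [Fintype H]

theorem outer_mem {α : G → ℂ} {β : H → ℂ} (hα : α ∈ IrrC G) (hβ : β ∈ IrrC H) :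
    outer α β ∈ IrrC (G × H) := by
  classical
  obtain ⟨n, _, ρ, hρ, _⟩ := exists_matrix hα
  obtain ⟨m, _, τ, hτ, _⟩ := exists_matrix hβ
  let σ : G × H →* Matrix (Fin n × Fin m) (Fin n × Fin m) ℂ :=
    { toFun := fun x => Matrix.kroneckerMap (· * ·) (ρ x.1) (τ x.2)
      map_one' := by
        simp only [Prod.fst_one, Prod.snd_one, map_one]
        exact Matrix.one_kronecker_one
      map_mul' := fun x y => by
        simp only [Prod.fst_mul, Prod.snd_mul, map_mul]
        exact Matrix.mul_kronecker_mul _ _ _ _ }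
  have h1 : ∀ x, (σ x).trace = outer α β x := fun x => by
    change (Matrix.kroneckerMap (· * ·) (ρ x.1) (τ x.2)).trace = _
    rw [outer, hρ, hτ]
    exact Matrix.trace_kronecker _ _
  have h2 : (fun x => (σ x).trace) = outer α β := funext h1
  rw [← h2]
  apply mem_irr_of_matrix
  simp only [h1]
  rw [Fintype.sum_prod_type, Fintype.card_prod]
  have h3 : ∀ a : G, ∀ b : H, outer α β (a, b) * outer α β (a, b)⁻¹ =
      (α a * α a⁻¹) * (β b * β b⁻¹) := by
    intro a b
    simp only [outer, Prod.inv_mk]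
    ring
  simp only [h3, ← Finset.mul_sum, ← Finset.sum_mul, irr_norm hα, irr_norm hβ]
  push_cast
  ring

theorem outer_surj {χ : G × H → ℂ} (hχ : χ ∈ IrrC (G × H)) :
    ∃ α ∈ IrrC G, ∃ β ∈ IrrC H, outer α β = χ := by
  by_contra hcon
  push Not at hcon
  have h0 : ∀ α ∈ IrrC G, ∀ β ∈ IrrC H, ∑ a, ∑ b, χ (a, b) * (α a⁻¹ * β b⁻¹) = 0 := by
    intro α hα β hβ
    have := irr_orth hχ (outer_mem hα hβ) (hcon α hα β hβ).symm
    rw [Fintype.sum_prod_type] at this
    exact this
  have k1 : ∀ β ∈ IrrC H, (fun a => ∑ b, χ (a, b) * β b⁻¹) = 0 := by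
    intro β hβ
    apply irr_complete
    · intro g u
      apply Finset.sum_congr rfl
      intro b _
      have := irr_class hχ (g, b) (u, 1)
      simp only [Prod.mk_mul_mk, Prod.inv_mk, one_mul, inv_one, mul_one] at this
      rw [this]
    · intro α hα
      rw [← h0 α hα β hβ]
      apply Finset.sum_congr rfl
      intro a _
      rw [Finset.sum_mul]
      apply Finset.sum_congr rfl
      intro b _
      ring
  have k2 : (fun b => χ (1, b)) = 0 := by
    apply irr_complete
    · intro g u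
      have := irr_class hχ (1, g) (1, u)
      simp only [Prod.mk_mul_mk, Prod.inv_mk, one_mul, inv_one] at this
      exact this
    · intro β hβ
      exact congrFun (k1 β hβ) 1
  exact irr_one_ne hχ (congrFun k2 1)

theorem outer_inj {α α' : G → ℂ} {β β' : H → ℂ} (hα : α ∈ IrrC G) (hβ : β ∈ IrrC H)
    (hα' : α' ∈ IrrC G) (hβ' : β' ∈ IrrC H) (h : outer α β = outer α' β') :
    α = α' ∧ β = β' := by
  have hn : ∑ x, outer α β x * outer α' β' x⁻¹ = (Fintype.card (G × H) : ℂ) := by
    rw [← h]; exact irr_norm (outer_mem hα hβ)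
  have hs : ∑ x, outer α β x * outer α' β' x⁻¹ =
      (∑ a, α a * α' a⁻¹) * ∑ b, β b * β' b⁻¹ := by
    rw [Fintype.sum_prod_type, Finset.sum_mul]
    apply Finset.sum_congr rfl
    intro a _
    rw [Finset.mul_sum]
    apply Finset.sum_congr rfl
    intro b _
    simp only [outer, Prod.inv_mk]
    ring
  have hc : (Fintype.card (G × H) : ℂ) ≠ 0 := by exact_mod_cast Fintype.card_ne_zero
  rw [hs] at hn
  constructor
  · by_contra hne
    rw [irr_orth hα hα' hne, zero_mul] at hn
    exact hc hn.symm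
  · by_contra hne
    rw [irr_orth hβ hβ' hne, mul_zero] at hn
    exact hc hn.symm

end prod

section one
variable {G : Type} [Group G] [Fintype G]

/-- the finite set of irreducible characters -/
noncomputable def irrF (G : Type) [Group G] [Fintype G] : Finset (G → ℂ) :=
  (irr_finite (Γ := G)).toFinset

theorem mem_irrF {χ : G → ℂ} : χ ∈ irrF G ↔ χ ∈ IrrC G := Set.Finite.mem_toFinset _

theorem sum_sq : ∑ χ ∈ irrF G, (χ 1) ^ 2 = (Fintype.card G : ℂ) := by
  classical
  let f : G → ℂ := fun g => (if g = 1 then (Fintype.card G : ℂ) else 0) - ∑ χ ∈ irrF G, χ 1 * χ g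
  have hf : f = 0 := by
    apply irr_complete
    · intro g u
      simp only [f]
      congr 1
      · congr 1
        rw [mul_inv_eq_one, mul_eq_left]
      · apply Finset.sum_congr rfl
        intro χ hχ
        rw [irr_class (mem_irrF.1 hχ)]
    · intro ψ hψ
      simp only [f, sub_mul, Finset.sum_sub_distrib, ite_mul, zero_mul]
      rw [Finset.sum_ite_eq' Finset.univ (1 : G)]
      simp only [Finset.mem_univ, if_true, inv_one]
      rw [sub_eq_zero]
      have : ∑ x, (∑ χ ∈ irrF G, χ 1 * χ x) * ψ x⁻¹ =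
          ∑ χ ∈ irrF G, χ 1 * ∑ x, χ x * ψ x⁻¹ := by
        simp only [Finset.sum_mul, Finset.mul_sum]
        rw [Finset.sum_comm]
        simp only [mul_assoc]
      rw [this, Finset.sum_eq_single ψ]
      · rw [irr_norm hψ]; ring
      · intro χ hχ hne
        rw [irr_orth (mem_irrF.1 hχ) hψ hne, mul_zero]
      · intro h; exact absurd (mem_irrF.2 hψ) h
  have h1 := congrFun hf 1
  simp only [f, if_true, Pi.zero_apply] at h1
  rw [sub_eq_zero] at h1
  rw [h1]
  apply Finset.sum_congr rfl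
  intro χ _
  ring

/-- the degree as a natural number -/
noncomputable def dg (χ : G → ℂ) : ℕ := ⌊‖χ 1‖⌋₊

omit [Fintype G] in
theorem dg_of {χ : G → ℂ} {n : ℕ} (h : χ 1 = n) : dg χ = n := by
  rw [dg, h]; simp

omit [Fintype G] in
theorem dg_spec {χ : G → ℂ} (h : χ ∈ IrrC G) : χ 1 = (dg χ : ℂ) ∧ 0 < dg χ := by
  obtain ⟨n, hn, h1⟩ := irr_one h
  rw [dg_of h1]
  exact ⟨h1, hn⟩

theorem sum_sq_nat : ∑ χ ∈ irrF G, (dg χ) ^ 2 = Fintype.card G := by
  have h := sum_sq (G := G)
  have h2 : ∑ χ ∈ irrF G, (χ 1) ^ 2 = ((∑ χ ∈ irrF G, (dg χ) ^ 2 : ℕ) : ℂ) := by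
    push_cast
    apply Finset.sum_congr rfl
    intro χ hχ
    exact congrArg (· ^ 2) (dg_spec (mem_irrF.1 hχ)).1
  rw [h2] at h
  exact_mod_cast h

theorem card_irrF_le : (irrF G).card ≤ Fintype.card G := by
  rw [← sum_sq_nat, Finset.card_eq_sum_ones]
  apply Finset.sum_le_sum
  intro χ hχ
  have := (dg_spec (mem_irrF.1 hχ)).2
  exact Nat.one_le_pow _ _ this

/-- transport along an isomorphism -/
theorem irr_comp {H : Type} [Group H] [Fintype H] (e : G ≃* H) {χ : H → ℂ} (h : χ ∈ IrrC H) :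
    χ ∘ e ∈ IrrC G := by
  classical
  obtain ⟨n, _, ρ, hρ, _⟩ := exists_matrix h
  let σ : G →* Matrix (Fin n) (Fin n) ℂ := ρ.comp e.toMonoidHom
  have h1 : ∀ x, (σ x).trace = χ (e x) := fun x => (hρ (e x)).symm
  have h2 : (fun x => (σ x).trace) = χ ∘ e := funext h1
  rw [← h2]
  apply mem_irr_of_matrix
  simp only [h1, map_inv]
  have h3 : ∑ x, χ (e x) * χ (e x)⁻¹ = ∑ y, χ y * χ y⁻¹ :=
    Equiv.sum_comp e.toEquiv (fun y => χ y * χ y⁻¹)
  rw [h3, irr_norm h, Fintype.card_congr e.toEquiv]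

end one

end Pool.Agent.TH798.MK
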