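import Pool.Agent.TH798.MK.Cnt

/-!
Irreducible characters of the regular wreath product `G ≀ Q`, `G` any finite group, `|Q|` prime:
the induced ones.
-/

set_option autoImplicit false
open CategoryTheory

namespace Pool.Agent.TH798.MK.WQ
open Pool.Agent.W367.SN Pool.Agent.TH798.MK

section wr
variable {G Q : Type} [Group G] [Group Q] [Fintype Q] [DecidableEq Q]

/-- the monomial-type representation induced from a tuple of representations -/
noncomputable def rep (n : Q → ℕ) (ρ : ∀ u, G →* Matrix (Fin (n u)) (Fin (n u)) ℂ) :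
    (G ≀ᵣ Q) →* Matrix (Q × (∀ u, Fin (n u))) (Q × (∀ u, Fin (n u))) ℂ where
  toFun w := fun x y => if x.1 = w.right * y.1 then
    ∏ u, ρ u (w.left (x.1 * u)) (x.2 u) (y.2 u) else 0
  map_one' := by
    ext ⟨x, i⟩ ⟨y, j⟩
    simp only [RegularWreathProduct.one_right, one_mul, RegularWreathProduct.one_left,
      Pi.one_apply, map_one, Matrix.one_apply]
    by_cases h : x = y
    · subst h
      rw [if_pos rfl]
      by_cases h2 : i = j
      · subst h2; simp
      · rw [if_neg (by intro h3; exact h2 (Prod.mk.inj h3).2)]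
        obtain ⟨u, hu⟩ := Function.ne_iff.1 h2
        exact Finset.prod_eq_zero (Finset.mem_univ u) (if_neg hu)
    · rw [if_neg h, if_neg (by intro h3; exact h (Prod.mk.inj h3).1)]
  map_mul' v w := by
    ext ⟨x, i⟩ ⟨z, k⟩
    rw [Matrix.mul_apply, Fintype.sum_prod_type, Finset.sum_eq_single (v.right⁻¹ * x)]
    · simp only [RegularWreathProduct.mul_right, RegularWreathProduct.mul_left,
        mul_inv_cancel_left, if_true]
      by_cases h : x = v.right * w.right * z
      · have h' : v.right⁻¹ * x = w.right * z := by rw [h]; group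
        simp only [if_pos h, if_pos h']
        simp only [← Finset.prod_mul_distrib]
        have h1 := (Finset.prod_univ_sum (fun u => (Finset.univ : Finset (Fin (n u))))
          (fun u a => ρ u (v.left (x * u)) (i u) a *
            ρ u (w.left (v.right⁻¹ * x * u)) a (k u)))
        rw [Fintype.piFinset_univ] at h1
        rw [← h1]
        apply Finset.prod_congr rfl
        intro u _
        rw [← Matrix.mul_apply, ← map_mul, Pi.mul_apply, mul_assoc (v.right⁻¹) x u]
      · have h' : ¬ v.right⁻¹ * x = w.right * z := by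
          intro hh
          apply h
          rw [mul_assoc, ← hh]; group
        simp only [if_neg h, if_neg h', mul_zero, Finset.sum_const_zero]
    · intro y _ hy
      have : ¬ x = v.right * y := by
        intro hh
        apply hy
        rw [hh]; group
      apply Finset.sum_eq_zero
      intro j _
      change (if x = v.right * y then _ else 0) * _ = 0
      rw [if_neg this, zero_mul]
    · intro h; exact absurd (Finset.mem_univ _) h

/-- the character attached to a tuple of functions -/
noncomputable def chi (l : Q → (G → ℂ)) (w : G ≀ᵣ Q) : ℂ :=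
  if w.right = 1 then ∑ x, ∏ u, l u (w.left (x * u)) else 0

theorem rep_trace (n : Q → ℕ) (ρ : ∀ u, G →* Matrix (Fin (n u)) (Fin (n u)) ℂ) (w : G ≀ᵣ Q) :
    (rep n ρ w).trace = chi (fun u g => (ρ u g).trace) w := by
  rw [Matrix.trace, Fintype.sum_prod_type]
  simp only [Matrix.diag_apply, rep, MonoidHom.coe_mk, OneHom.coe_mk, chi]
  by_cases h : w.right = 1
  · rw [if_pos h]
    apply Finset.sum_congr rfl
    intro x _
    have h1 := (Finset.prod_univ_sum (fun u => (Finset.univ : Finset (Fin (n u))))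
          (fun u a => ρ u (w.left (x * u)) a a))
    rw [Fintype.piFinset_univ] at h1
    simp only [h, one_mul, if_true]
    rw [← h1]
    rfl
  · have : ∀ x, ¬ x = w.right * x := by
      intro x hx
      apply h
      exact (mul_eq_right.1 hx.symm)
    simp [h, this]

variable [Fintype G]

instance : Fintype (G ≀ᵣ Q) := Fintype.ofEquiv _ (RegularWreathProduct.equivProd G Q).symm

theorem sum_wr (F : (G ≀ᵣ Q) → ℂ) : ∑ w, F w = ∑ f : Q → G, ∑ s : Q, F ⟨f, s⟩ := by
  rw [← Equiv.sum_comp (RegularWreathProduct.equivProd G Q).symm, Fintype.sum_prod_type]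
  rfl

theorem card_wr : Fintype.card (G ≀ᵣ Q) =
    Fintype.card G ^ Fintype.card Q * Fintype.card Q := by
  have := RegularWreathProduct.card (D := G) (Q := Q)
  simpa [Nat.card_eq_fintype_card] using this

theorem chi_pair (l l' : Q → (G → ℂ)) :
    ∑ w, chi l w * chi l' w⁻¹ =
      ∑ x, ∑ y, ∏ v, ∑ g, l (x⁻¹ * v) g * l' (y⁻¹ * v) g⁻¹ := by
  rw [sum_wr]
  have h1 : ∀ f : Q → G, ∑ s : Q, chi l ⟨f, s⟩ * chi l' (⟨f, s⟩ : G ≀ᵣ Q)⁻¹ =
      ∑ x, ∑ y, ∏ v, l (x⁻¹ * v) (f v) * l' (y⁻¹ * v) (f v)⁻¹ := by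
    intro f
    rw [Finset.sum_eq_single 1]
    · have h2 : ((⟨f, 1⟩ : G ≀ᵣ Q)⁻¹).left = f⁻¹ := by
        rw [RegularWreathProduct.inv_left]
        ext k
        simp
      have h3 : ((⟨f, 1⟩ : G ≀ᵣ Q)⁻¹).right = 1 := by
        rw [RegularWreathProduct.inv_right, inv_one]
      rw [chi, chi, if_pos rfl, if_pos h3, h2, Finset.sum_mul_sum]
      apply Finset.sum_congr rfl
      intro x _
      apply Finset.sum_congr rfl
      intro y _
      rw [Finset.prod_mul_distrib]
      congr 1
      · rw [← Equiv.prod_comp (Equiv.mulLeft x) (fun v => l (x⁻¹ * v) (f v))]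
        apply Finset.prod_congr rfl
        intro u _
        simp only [Equiv.coe_mulLeft, inv_mul_cancel_left]
      · rw [← Equiv.prod_comp (Equiv.mulLeft y) (fun v => l' (y⁻¹ * v) (f v)⁻¹)]
        apply Finset.prod_congr rfl
        intro u _
        simp only [Equiv.coe_mulLeft, inv_mul_cancel_left, Pi.inv_apply]
    · intro s _ hs
      rw [chi, if_neg hs, zero_mul]
    · intro h; exact absurd (Finset.mem_univ _) h
  rw [Finset.sum_congr rfl (fun f _ => h1 f), Finset.sum_comm]
  apply Finset.sum_congr rfl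
  intro x _
  rw [Finset.sum_comm]
  apply Finset.sum_congr rfl
  intro y _
  have h2 := (Finset.prod_univ_sum (fun _ : Q => (Finset.univ : Finset G))
    (fun v g => l (x⁻¹ * v) g * l' (y⁻¹ * v) g⁻¹))
  rw [Fintype.piFinset_univ] at h2
  rw [h2]

/-- no symmetry under nontrivial translations -/
def Free (l : Q → (G → ℂ)) : Prop := ∀ t : Q, (∀ v, l (t * v) = l v) → t = 1

theorem pair_val (l l' : Q → (G → ℂ)) (hl : ∀ u, l u ∈ IrrC G) (hl' : ∀ u, l' u ∈ IrrC G)
    (x y : Q) (h : ¬ ∀ v, l (x⁻¹ * v) = l' (y⁻¹ * v)) :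
    ∏ v, ∑ g, l (x⁻¹ * v) g * l' (y⁻¹ * v) g⁻¹ = 0 := by
  push Not at h
  obtain ⟨v, hv⟩ := h
  exact Finset.prod_eq_zero (Finset.mem_univ v) (irr_orth (hl _) (hl' _) hv)

theorem chi_mem (l : Q → (G → ℂ)) (hI : ∀ u, l u ∈ IrrC G) (hl : Free l) :
    chi l ∈ IrrC (G ≀ᵣ Q) := by
  classical
  choose n _ ρ hρ _ using fun u => exists_matrix (hI u)
  have h0 : l = fun u g => (ρ u g).trace := by funext u g; exact hρ u g
  have h2 : (fun w => (rep n ρ w).trace) = chi l := by
    rw [h0]; exact funext (rep_trace n ρ)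
  have h2' : ∀ w, (rep n ρ w).trace = chi l w := fun w => congrFun h2 w
  rw [← h2]
  apply mem_irr_of_matrix
  simp only [h2']
  rw [chi_pair, card_wr]
  have h3 : ∀ x : Q, ∑ y, ∏ v, ∑ g, l (x⁻¹ * v) g * l (y⁻¹ * v) g⁻¹ =
      (Fintype.card G : ℂ) ^ Fintype.card Q := by
    intro x
    rw [Finset.sum_eq_single x]
    · rw [Finset.prod_congr rfl (fun v _ => irr_norm (hI (x⁻¹ * v))), Finset.prod_const,
        Finset.card_univ]
    · intro y _ hy
      apply pair_val l l hI hI
      intro h4
      have h5 := hl (y⁻¹ * x) (fun v => by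
        have := h4 (x * v)
        rw [inv_mul_cancel_left] at this
        rw [mul_assoc, this])
      exact hy (inv_mul_eq_one.1 h5)
    · intro h; exact absurd (Finset.mem_univ _) h
  simp only [h3, Finset.sum_const, Finset.card_univ, nsmul_eq_mul]
  push_cast
  ring

theorem chi_eq (l l' : Q → (G → ℂ)) (hI : ∀ u, l u ∈ IrrC G) (hI' : ∀ u, l' u ∈ IrrC G)
    (hl : Free l) (h : chi l = chi l') :
    ∃ t : Q, l' = fun u => l (t * u) := by
  classical
  by_contra hcon
  push Not at hcon
  have h1 : ∑ w, chi l w * chi l' w⁻¹ = (Fintype.card (G ≀ᵣ Q) : ℂ) := by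
    rw [← h]; exact irr_norm (chi_mem l hI hl)
  rw [chi_pair] at h1
  have h2 : ∀ x y : Q, ∏ v, ∑ g, l (x⁻¹ * v) g * l' (y⁻¹ * v) g⁻¹ = 0 := by
    intro x y
    apply pair_val l l' hI hI'
    intro h3
    apply hcon (x⁻¹ * y)
    funext u
    have := h3 (y * u)
    rw [inv_mul_cancel_left] at this
    rw [← this, mul_assoc]
  simp only [h2, Finset.sum_const_zero] at h1
  have hc : (Fintype.card (G ≀ᵣ Q) : ℂ) ≠ 0 := by exact_mod_cast Fintype.card_ne_zero
  exact hc h1.symm

omit [Group G] [DecidableEq Q] [Fintype G] in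
theorem const_of_not_free (hq : (Fintype.card Q).Prime) (l : Q → (G → ℂ)) (hl : ¬ Free l)
    (x : Q) : l x = l 1 := by
  unfold Free at hl
  push Not at hl
  obtain ⟨t, ht, h1⟩ := hl
  let S : Subgroup Q :=
    { carrier := {t | ∀ v, l (t * v) = l v}
      one_mem' := fun v => by rw [one_mul]
      mul_mem' := fun {a b} ha hb v => by rw [mul_assoc, ha, hb]
      inv_mem' := fun {a} ha v => by
        have := ha (a⁻¹ * v)
        rw [mul_inv_cancel_left] at this
        exact this.symm }
  have hS : t ∈ S := ht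
  have hfact : Fact (Fintype.card Q).Prime := ⟨hq⟩
  have htop : Subgroup.zpowers t = ⊤ :=
    zpowers_eq_top_of_prime_card (p := Fintype.card Q) (Nat.card_eq_fintype_card) h1
  have hx : x ∈ S := by
    have : Subgroup.zpowers t ≤ S := by rwa [Subgroup.zpowers_le]
    apply this
    rw [htop]; trivial
  have := hx 1
  rwa [mul_one] at this

omit [Fintype G] in
theorem dg_chi (l : Q → (G → ℂ)) (hI : ∀ u, l u ∈ IrrC G) :
    dg (chi l) = Fintype.card Q * ∏ u, dg (l u) := by
  apply dg_of
  rw [chi, RegularWreathProduct.one_right, if_pos rfl, RegularWreathProduct.one_left]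
  simp only [Pi.one_apply, Finset.sum_const, Finset.card_univ, nsmul_eq_mul]
  rw [Finset.prod_congr rfl (fun u _ => (dg_spec (hI u)).1)]
  push_cast
  rfl

end wr

end Pool.Agent.TH798.MK.WQ
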