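import Pool.Agent.TH798.MK.WQ1

/-!
Irreducible characters of the regular wreath product `G ≀ Q`, `G` any finite group: the extended
ones.
-/

set_option autoImplicit false
open CategoryTheory

namespace Pool.Agent.TH798.MK.WQ
open Pool.Agent.W367.SN Pool.Agent.TH798.MK

section schur
variable {G : Type} [Group G] [Fintype G]

/-- Schur orthogonality for matrix coefficients -/
theorem coeff_orth {n : ℕ} (hn : 0 < n) (ρ : G →* Matrix (Fin n) (Fin n) ℂ)
    (hs : ∀ X : Matrix (Fin n) (Fin n) ℂ, (∀ g, X * ρ g = ρ g * X) → ∃ c : ℂ, X = c • 1)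
    (i j k l : Fin n) :
    ∑ g, ρ g i j * ρ g⁻¹ k l = if i = l ∧ k = j then (Fintype.card G : ℂ) / n else 0 := by
  classical
  let E : Matrix (Fin n) (Fin n) ℂ := Matrix.single j k 1
  let X : Matrix (Fin n) (Fin n) ℂ := ∑ g, ρ g * E * ρ g⁻¹
  have hX : ∀ h, X * ρ h = ρ h * X := by
    intro h
    simp only [X, Finset.sum_mul, Finset.mul_sum]
    rw [← Equiv.sum_comp (Equiv.mulLeft h)]
    apply Finset.sum_congr rfl
    intro g _
    simp only [Equiv.coe_mulLeft, _root_.mul_inv_rev, map_mul]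
    have h1 : ρ h⁻¹ * ρ h = 1 := by rw [← map_mul, inv_mul_cancel, map_one]
    simp only [mul_assoc, h1, mul_one]
  obtain ⟨c, hc⟩ := hs X hX
  have hentry : ∀ a b, X a b = ∑ g, ρ g a j * ρ g⁻¹ k b := by
    intro a b
    simp only [X, Matrix.sum_apply]
    apply Finset.sum_congr rfl
    intro g _
    rw [Matrix.mul_apply, Finset.sum_eq_single k]
    · congr 1
      rw [Matrix.mul_apply, Finset.sum_eq_single j]
      · simp [E]
      · intro x _ hx
        simp [E, Matrix.single_apply, hx.symm]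
      · intro h; exact absurd (Finset.mem_univ _) h
    · intro x _ hx
      rw [Matrix.mul_apply, Finset.sum_eq_zero, zero_mul]
      intro y _
      simp [E, Matrix.single_apply, hx.symm]
    · intro h; exact absurd (Finset.mem_univ _) h
  have htr : X.trace = (Fintype.card G : ℂ) * (if k = j then 1 else 0) := by
    simp only [X, Matrix.trace_sum]
    have h1 : ∀ g, (ρ g * E * ρ g⁻¹).trace = if k = j then 1 else 0 := by
      intro g
      rw [Matrix.trace_mul_comm, ← mul_assoc, ← map_mul, inv_mul_cancel, map_one, one_mul]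
      by_cases h : k = j
      · subst h; simp [E, Matrix.trace_single_eq_same]
      · rw [if_neg h]
        exact Matrix.trace_single_eq_of_ne _ _ _ (Ne.symm h)
    simp only [h1, Finset.sum_const, Finset.card_univ, nsmul_eq_mul]
  have hn0 : (n : ℂ) ≠ 0 := by exact_mod_cast hn.ne'
  have hc2 : c * n = (Fintype.card G : ℂ) * (if k = j then 1 else 0) := by
    rw [← htr, hc, Matrix.trace_smul, Matrix.trace_one, Fintype.card_fin, smul_eq_mul]
  rw [← hentry, hc, Matrix.smul_apply, smul_eq_mul, Matrix.one_apply]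
  by_cases h1 : i = l
  · by_cases h2 : k = j
    · rw [if_pos h1, if_pos ⟨h1, h2⟩, mul_one, eq_div_iff hn0, hc2, if_pos h2, mul_one]
    · rw [if_pos h1, if_neg (fun h => h2 h.2), mul_one]
      rw [if_neg h2, mul_zero] at hc2
      exact (mul_eq_zero.1 hc2).resolve_right hn0
  · rw [if_neg h1, if_neg (fun h => h1 h.1), mul_zero]

end schur

section wr
variable {G Q : Type} [Group G] [Group Q] [Fintype Q] [DecidableEq Q]

/-- the tensor-induced representation, twisted by a linear character of `Q` -/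
noncomputable def ten {n : ℕ} (ρ : G →* Matrix (Fin n) (Fin n) ℂ) (l : Q →* ℂˣ) :
    (G ≀ᵣ Q) →* Matrix (Q → Fin n) (Q → Fin n) ℂ where
  toFun w := fun i j => ((l w.right : ℂˣ) : ℂ) * ∏ x, ρ (w.left x) (i x) (j (w.right⁻¹ * x))
  map_one' := by
    ext i j
    simp only [RegularWreathProduct.one_right, RegularWreathProduct.one_left,
      Pi.one_apply, map_one, Matrix.one_apply, inv_one, one_mul, Units.val_one]
    by_cases h2 : i = j
    · subst h2; simp
    · rw [if_neg h2]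
      obtain ⟨u, hu⟩ := Function.ne_iff.1 h2
      exact Finset.prod_eq_zero (Finset.mem_univ u) (if_neg hu)
  map_mul' v w := by
    ext i k
    rw [Matrix.mul_apply]
    simp only [RegularWreathProduct.mul_right, RegularWreathProduct.mul_left]
    have h1 : ∀ j : Q → Fin n,
        ((l v.right : ℂˣ) : ℂ) * (∏ x, ρ (v.left x) (i x) (j (v.right⁻¹ * x))) *
          (((l w.right : ℂˣ) : ℂ) * ∏ x, ρ (w.left x) (j x) (k (w.right⁻¹ * x))) =
        ((l v.right : ℂˣ) : ℂ) * ((l w.right : ℂˣ) : ℂ) *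
          ∏ x, (ρ (v.left x) (i x) (j (v.right⁻¹ * x)) *
            ρ (w.left (v.right⁻¹ * x)) (j (v.right⁻¹ * x)) (k (w.right⁻¹ * (v.right⁻¹ * x)))) := by
      intro j
      rw [Finset.prod_mul_distrib, ← Equiv.prod_comp (Equiv.mulLeft v.right⁻¹)
        (fun x => ρ (w.left x) (j x) (k (w.right⁻¹ * x)))]
      simp only [Equiv.coe_mulLeft]
      ring
    simp only [h1, ← Finset.mul_sum]
    have h2 : ∑ j : Q → Fin n, ∏ x, (ρ (v.left x) (i x) (j (v.right⁻¹ * x)) *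
            ρ (w.left (v.right⁻¹ * x)) (j (v.right⁻¹ * x)) (k (w.right⁻¹ * (v.right⁻¹ * x)))) =
        ∑ j : Q → Fin n, ∏ x, (ρ (v.left x) (i x) (j x) *
            ρ (w.left (v.right⁻¹ * x)) (j x) (k (w.right⁻¹ * (v.right⁻¹ * x)))) := by
      rw [← Equiv.sum_comp (Equiv.arrowCongr (Equiv.mulLeft v.right) (Equiv.refl (Fin n)))
        (fun j : Q → Fin n => ∏ x, (ρ (v.left x) (i x) (j x) *
            ρ (w.left (v.right⁻¹ * x)) (j x) (k (w.right⁻¹ * (v.right⁻¹ * x)))))]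
      rfl
    rw [h2]
    have h3 := (Finset.prod_univ_sum (fun _ : Q => (Finset.univ : Finset (Fin n)))
          (fun x a => ρ (v.left x) (i x) a *
            ρ (w.left (v.right⁻¹ * x)) a (k (w.right⁻¹ * (v.right⁻¹ * x)))))
    rw [Fintype.piFinset_univ] at h3
    rw [← h3, map_mul, Units.val_mul]
    congr 1
    apply Finset.prod_congr rfl
    intro x _
    rw [← Matrix.mul_apply, ← map_mul, Pi.mul_apply, _root_.mul_inv_rev, mul_assoc]

/-- the trace of the untwisted representation -/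
noncomputable def tt {n : ℕ} (ρ : G →* Matrix (Fin n) (Fin n) ℂ) (w : G ≀ᵣ Q) : ℂ :=
  ∑ i : Q → Fin n, ∏ x, ρ (w.left x) (i x) (i (w.right⁻¹ * x))

theorem ten_trace {n : ℕ} (ρ : G →* Matrix (Fin n) (Fin n) ℂ) (l : Q →* ℂˣ) (w : G ≀ᵣ Q) :
    (ten ρ l w).trace = ((l w.right : ℂˣ) : ℂ) * tt ρ w := by
  rw [Matrix.trace, tt, Finset.mul_sum]
  rfl

variable [Fintype G]

theorem tt_norm {n : ℕ} (hn : 0 < n) (ρ : G →* Matrix (Fin n) (Fin n) ℂ)
    (hs : ∀ X : Matrix (Fin n) (Fin n) ℂ, (∀ g, X * ρ g = ρ g * X) → ∃ c : ℂ, X = c • 1)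
    (s : Q) :
    ∑ f : Q → G, tt ρ (⟨f, s⟩ : G ≀ᵣ Q) * tt ρ (⟨f, s⟩ : G ≀ᵣ Q)⁻¹ =
      (Fintype.card G : ℂ) ^ Fintype.card Q := by
  have h1 : ∀ f : Q → G, tt ρ (⟨f, s⟩ : G ≀ᵣ Q) * tt ρ (⟨f, s⟩ : G ≀ᵣ Q)⁻¹ =
      ∑ i : Q → Fin n, ∑ k : Q → Fin n, ∏ x,
        (ρ (f x) (i x) (i (s⁻¹ * x)) * ρ (f x)⁻¹ (k (s⁻¹ * x)) (k x)) := by
    intro f
    rw [tt, tt, Finset.sum_mul_sum]
    apply Finset.sum_congr rfl
    intro i _
    apply Finset.sum_congr rfl
    intro k _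
    rw [Finset.prod_mul_distrib]
    congr 1
    rw [← Equiv.prod_comp (Equiv.mulLeft s)
      (fun x => ρ (f x)⁻¹ (k (s⁻¹ * x)) (k x))]
    apply Finset.prod_congr rfl
    intro x _
    simp only [RegularWreathProduct.inv_left, RegularWreathProduct.inv_right, inv_inv,
      Equiv.coe_mulLeft, inv_mul_cancel_left, Pi.inv_apply]
  simp only [h1]
  rw [Finset.sum_comm]
  have h2 : ∀ i : Q → Fin n, ∑ f : Q → G, ∑ k : Q → Fin n, ∏ x,
        (ρ (f x) (i x) (i (s⁻¹ * x)) * ρ (f x)⁻¹ (k (s⁻¹ * x)) (k x)) =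
        ((Fintype.card G : ℂ) / n) ^ Fintype.card Q := by
    intro i
    rw [Finset.sum_comm]
    have h3 : ∀ k : Q → Fin n, ∑ f : Q → G, ∏ x,
        (ρ (f x) (i x) (i (s⁻¹ * x)) * ρ (f x)⁻¹ (k (s⁻¹ * x)) (k x)) =
        ∏ x, (if i x = k x ∧ k (s⁻¹ * x) = i (s⁻¹ * x) then (Fintype.card G : ℂ) / n else 0) := by
      intro k
      have h4 := (Finset.prod_univ_sum (fun _ : Q => (Finset.univ : Finset G))
        (fun x g => ρ g (i x) (i (s⁻¹ * x)) * ρ g⁻¹ (k (s⁻¹ * x)) (k x)))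
      rw [Fintype.piFinset_univ] at h4
      rw [← h4]
      apply Finset.prod_congr rfl
      intro x _
      exact coeff_orth hn ρ hs _ _ _ _
    simp only [h3]
    rw [Finset.sum_eq_single i]
    · simp [div_pow]
    · intro k _ hk
      obtain ⟨u, hu⟩ := Function.ne_iff.1 hk
      apply Finset.prod_eq_zero (Finset.mem_univ u)
      rw [if_neg]
      intro h
      exact hu h.1.symm
    · intro h; exact absurd (Finset.mem_univ _) h
  simp only [h2, Finset.sum_const, Finset.card_univ, nsmul_eq_mul, Fintype.card_fun,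
    Fintype.card_fin]
  push_cast
  rw [← mul_pow, mul_div_cancel₀]
  exact_mod_cast hn.ne'

end wr

section ext
variable {G Q : Type} [Group G] [Group Q] [Fintype Q] [DecidableEq Q] [Fintype G]

open Classical in
/-- the extended character of `α` twisted by `l` -/
noncomputable def ex (α : G → ℂ) (l : Q →* ℂˣ) (w : G ≀ᵣ Q) : ℂ :=
  if h : α ∈ IrrC G then ((l w.right : ℂˣ) : ℂ) * tt (exists_matrix h).choose_spec.2.choose w
  else 0

theorem ex_spec {α : G → ℂ} (hα : α ∈ IrrC G) : ∃ n : ℕ, 0 < n ∧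
    ∃ ρ : G →* Matrix (Fin n) (Fin n) ℂ, (∀ g, α g = (ρ g).trace) ∧
      (∀ X : Matrix (Fin n) (Fin n) ℂ, (∀ g, X * ρ g = ρ g * X) → ∃ c : ℂ, X = c • 1) ∧
      ∀ (l : Q →* ℂˣ) (w : G ≀ᵣ Q), ex α l w = ((l w.right : ℂˣ) : ℂ) * tt ρ w := by
  have h := (exists_matrix hα).choose_spec
  refine ⟨(exists_matrix hα).choose, h.1, h.2.choose, h.2.choose_spec.1, h.2.choose_spec.2, ?_⟩
  intro l w
  rw [ex, dif_pos hα]

theorem ex_mem {α : G → ℂ} (hα : α ∈ IrrC G) (l : Q →* ℂˣ) : ex α l ∈ IrrC (G ≀ᵣ Q) := by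
  obtain ⟨n, hn, ρ, hρ, hs, hex⟩ := ex_spec (Q := Q) hα
  have h2 : (fun w => (ten ρ l w).trace) = ex α l := by
    funext w
    rw [ten_trace, hex]
  have h2' : ∀ w, (ten ρ l w).trace = ex α l w := fun w => congrFun h2 w
  rw [← h2]
  apply mem_irr_of_matrix
  simp only [h2']
  rw [sum_wr, Finset.sum_comm, card_wr]
  have h3 : ∀ s : Q, ∑ f : Q → G, ex α l (⟨f, s⟩ : G ≀ᵣ Q) * ex α l (⟨f, s⟩ : G ≀ᵣ Q)⁻¹ =
      (Fintype.card G : ℂ) ^ Fintype.card Q := by
    intro s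
    rw [← tt_norm hn ρ hs s]
    apply Finset.sum_congr rfl
    intro f _
    rw [hex, hex, RegularWreathProduct.inv_right, map_inv]
    have h4 : ((l s : ℂˣ) : ℂ) * (((l s)⁻¹ : ℂˣ) : ℂ) = 1 := Units.mul_inv _
    linear_combination (tt ρ (⟨f, s⟩ : G ≀ᵣ Q) * tt ρ (⟨f, s⟩ : G ≀ᵣ Q)⁻¹) * h4
  simp only [h3, Finset.sum_const, Finset.card_univ, nsmul_eq_mul]
  push_cast
  ring

theorem ex_ne {α : G → ℂ} (hα : α ∈ IrrC G) (l : Q →* ℂˣ) (s : Q) :
    ∃ f : Q → G, ∀ l : Q →* ℂˣ, ex α l (⟨f, s⟩ : G ≀ᵣ Q) ≠ 0 := by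
  obtain ⟨n, hn, ρ, hρ, hs, hex⟩ := ex_spec (Q := Q) hα
  by_contra hcon
  push Not at hcon
  have h1 : ∀ f : Q → G, tt ρ (⟨f, s⟩ : G ≀ᵣ Q) = 0 := by
    intro f
    obtain ⟨l, hl⟩ := hcon f
    rw [hex] at hl
    exact (mul_eq_zero.1 hl).resolve_left (Units.ne_zero _)
  have h2 := tt_norm hn ρ hs s
  simp only [h1, zero_mul, Finset.sum_const_zero] at h2
  have hc : (Fintype.card G : ℂ) ≠ 0 := by exact_mod_cast Fintype.card_ne_zero
  exact pow_ne_zero _ hc h2.symm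

theorem ex_base {α : G → ℂ} (hα : α ∈ IrrC G) (l : Q →* ℂˣ) (f : Q → G) :
    ex α l (⟨f, 1⟩ : G ≀ᵣ Q) = ∏ x, α (f x) := by
  obtain ⟨n, hn, ρ, hρ, hs, hex⟩ := ex_spec (Q := Q) hα
  rw [hex, map_one, Units.val_one, one_mul, tt]
  simp only [inv_one, one_mul]
  have h4 := (Finset.prod_univ_sum (fun _ : Q => (Finset.univ : Finset (Fin n)))
        (fun x a => ρ (f x) a a))
  rw [Fintype.piFinset_univ] at h4
  rw [← h4]
  apply Finset.prod_congr rfl
  intro x _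
  rw [hρ]; rfl

theorem dg_ex {α : G → ℂ} (hα : α ∈ IrrC G) (l : Q →* ℂˣ) :
    dg (ex α l) = dg α ^ Fintype.card Q := by
  apply dg_of
  have h1 : (1 : G ≀ᵣ Q) = ⟨1, 1⟩ := rfl
  rw [h1, ex_base hα]
  simp only [Pi.one_apply, Finset.prod_const, Finset.card_univ]
  rw [(dg_spec hα).1]
  push_cast
  rfl

theorem ex_inj {α α' : G → ℂ} (hα : α ∈ IrrC G) (hα' : α' ∈ IrrC G) (l l' : Q →* ℂˣ)
    (hQ : 0 < Fintype.card Q) (h : ex α l = ex α' l') : α = α' ∧ l = l' := by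
  have h1 : ∀ f : Q → G, ∏ x, α (f x) = ∏ x, α' (f x) := by
    intro f
    rw [← ex_base hα l, ← ex_base hα' l', h]
  have h2 : dg α = dg α' := by
    have h3 := congrArg dg h
    rw [dg_ex hα, dg_ex hα'] at h3
    exact Nat.pow_left_injective hQ.ne' h3
  have h3 : α 1 = α' 1 := by rw [(dg_spec hα).1, (dg_spec hα').1, h2]
  have h4 : α = α' := by
    funext g
    have h5 := h1 (Pi.mulSingle 1 g)
    have h6 : ∀ β : G → ℂ, ∏ x : Q, β ((Pi.mulSingle 1 g : Q → G) x) =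
        β g * ∏ x ∈ (Finset.univ : Finset Q).erase 1, β 1 := by
      intro β
      rw [← Finset.mul_prod_erase Finset.univ _ (Finset.mem_univ (1 : Q)), Pi.mulSingle_eq_same]
      congr 1
      apply Finset.prod_congr rfl
      intro x hx
      rw [Pi.mulSingle_eq_of_ne (Finset.ne_of_mem_erase hx)]
    rw [h6, h6, h3] at h5
    apply mul_right_cancel₀ _ h5
    rw [Finset.prod_const]
    exact pow_ne_zero _ (irr_one_ne hα')
  subst h4
  refine ⟨rfl, ?_⟩
  ext s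
  obtain ⟨n, hn, ρ, hρ, hs, hex⟩ := ex_spec (Q := Q) hα
  obtain ⟨f, hf⟩ := ex_ne hα l s
  have h5 := congrFun h ⟨f, s⟩
  have h6 := hf l
  rw [hex] at h6
  rw [hex, hex] at h5
  exact mul_right_cancel₀ (right_ne_zero_of_mul h6) h5

theorem ex_ne_chi {α : G → ℂ} (hα : α ∈ IrrC G) (l : Q →* ℂˣ) (m : Q → (G → ℂ))
    (hQ : 1 < Fintype.card Q) : ex α l ≠ chi m := by
  intro h
  obtain ⟨s, hs⟩ := Fintype.exists_ne_of_one_lt_card hQ (1 : Q)
  obtain ⟨f, hf⟩ := ex_ne hα l s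
  apply hf l
  rw [h, chi, if_neg hs]

end ext

end Pool.Agent.TH798.MK.WQ
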