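import Pool.Agent.TH798.MK.WQ2

/-!
Counting the irreducible characters of `G ≀ Q` by degree, `|Q|` prime.
-/

set_option autoImplicit false
open CategoryTheory

namespace Pool.Agent.TH798.MK.WQ
open Pool.Agent.W367.SN Pool.Agent.TH798.MK

section cnt
variable {G Q : Type} [Group G] [CommGroup Q] [Fintype Q] [DecidableEq Q] [Fintype G]

open Classical in
/-- the tuples of irreducible characters -/
noncomputable def Tup (G Q : Type) [Group G] [Fintype Q] [DecidableEq Q] [Fintype G] :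
    Finset (Q → (G → ℂ)) := Fintype.piFinset (fun _ : Q => irrF G)

omit [CommGroup Q] in
theorem mem_Tup {t : Q → (G → ℂ)} : t ∈ Tup G Q ↔ ∀ u, t u ∈ IrrC G := by
  rw [Tup, Fintype.mem_piFinset]
  simp only [mem_irrF]

theorem sum_const_tup (hq : (Fintype.card Q).Prime) (ψ : (Q → (G → ℂ)) → ℕ) [DecidablePred (Free (G := G) (Q := Q))] :
    ∑ t ∈ (Tup G Q).filter (fun t => ¬ Free t), ψ t = ∑ α ∈ irrF G, ψ (fun _ => α) := by
  symm
  apply Finset.sum_bij (fun α _ => (fun _ : Q => α))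
  · intro α hα
    apply Finset.mem_filter.2
    refine ⟨mem_Tup.2 (fun _ => mem_irrF.1 hα), ?_⟩
    intro hf
    obtain ⟨s, hs⟩ := Fintype.exists_ne_of_one_lt_card hq.one_lt (1 : Q)
    exact hs (hf s (fun v => rfl))
  · intro α _ β _ h
    exact congrFun h 1
  · intro t ht
    obtain ⟨h1, h2⟩ := Finset.mem_filter.1 ht
    refine ⟨t 1, mem_irrF.2 (mem_Tup.1 h1 1), ?_⟩
    funext x
    exact (const_of_not_free hq t h2 x).symm
  · intro α _
    rfl

open Classical in
theorem count_q (hq : (Fintype.card Q).Prime) (φ : ℕ → ℕ) :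
    Fintype.card Q * ∑ χ ∈ irrF (G ≀ᵣ Q), φ (dg χ) +
      ∑ α ∈ irrF G, φ (Fintype.card Q * dg α ^ Fintype.card Q) =
    ∑ t ∈ Tup G Q, φ (Fintype.card Q * ∏ u, dg (t u)) +
      Fintype.card Q ^ 2 * ∑ α ∈ irrF G, φ (dg α ^ Fintype.card Q) := by
  have hne : NeZero ((Monoid.exponent Q : ℕ) : ℂ) :=
    ⟨by exact_mod_cast Monoid.exponent_ne_zero_of_finite⟩
  have hen : HasEnoughRootsOfUnity ℂ (Monoid.exponent Q) := inferInstance
  have hfin : Fintype (Q →* ℂˣ) := Fintype.ofFinite _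
  have hcard : Fintype.card (Q →* ℂˣ) = Fintype.card Q := by
    have := CommGroup.card_monoidHom_of_hasEnoughRootsOfUnity Q ℂ
    simpa [Nat.card_eq_fintype_card] using this
  let E : Finset ((G ≀ᵣ Q) → ℂ) := ((Finset.univ : Finset (Q →* ℂˣ)) ×ˢ irrF G).image
    (fun y => ex y.2 y.1)
  let S : Finset (Q → (G → ℂ)) := (Tup G Q).filter Free
  let I : Finset ((G ≀ᵣ Q) → ℂ) := S.image chi
  have hE : ∀ φ : ℕ → ℕ, ∑ χ ∈ E, φ (dg χ) =
      Fintype.card Q * ∑ α ∈ irrF G, φ (dg α ^ Fintype.card Q) := by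
    intro φ
    rw [Finset.sum_image, Finset.sum_product]
    · have h1 : ∀ l ∈ (Finset.univ : Finset (Q →* ℂˣ)), ∑ α ∈ irrF G, φ (dg (ex (Q := Q) α l)) =
          ∑ α ∈ irrF G, φ (dg α ^ Fintype.card Q) := by
        intro l _
        apply Finset.sum_congr rfl
        intro α hα
        rw [dg_ex (mem_irrF.1 hα)]
      rw [Finset.sum_congr rfl h1, Finset.sum_const, Finset.card_univ, hcard, smul_eq_mul]
    · rintro ⟨l, α⟩ h ⟨l', α'⟩ h' heq
      obtain ⟨_, h2⟩ := Finset.mem_product.1 (Finset.mem_coe.1 h)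
      obtain ⟨_, h2'⟩ := Finset.mem_product.1 (Finset.mem_coe.1 h')
      have := ex_inj (mem_irrF.1 h2) (mem_irrF.1 h2') l l' hq.pos heq
      exact Prod.ext this.2 this.1
  have hI : ∀ φ : ℕ → ℕ, Fintype.card Q * ∑ χ ∈ I, φ (dg χ) =
      ∑ t ∈ S, φ (Fintype.card Q * ∏ u, dg (t u)) := by
    intro φ
    have h1 : ∀ t ∈ S, φ (Fintype.card Q * ∏ u, dg (t u)) = φ (dg (chi t)) := by
      intro t ht
      rw [dg_chi t (mem_Tup.1 (Finset.mem_filter.1 ht).1)]
    rw [Finset.sum_congr rfl h1, Finset.sum_comp (fun b => φ (dg b)) chi, Finset.mul_sum]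
    apply Finset.sum_congr rfl
    intro b hb
    obtain ⟨t0, ht0, rfl⟩ := Finset.mem_image.1 hb
    obtain ⟨h2, h3⟩ := Finset.mem_filter.1 ht0
    have h4 : S.filter (fun t => chi t = chi t0) =
        (Finset.univ : Finset Q).image (fun s => (fun u => t0 (s * u))) := by
      ext t
      rw [Finset.mem_filter, Finset.mem_image]
      constructor
      · rintro ⟨h5, h6⟩
        obtain ⟨s, hs⟩ := chi_eq t0 t (mem_Tup.1 h2)
          (mem_Tup.1 (Finset.mem_filter.1 h5).1) h3 h6.symm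
        exact ⟨s, Finset.mem_univ _, hs.symm⟩
      · rintro ⟨s, _, rfl⟩
        refine ⟨Finset.mem_filter.2 ⟨mem_Tup.2 (fun u => mem_Tup.1 h2 _), ?_⟩, ?_⟩
        · intro r hr
          apply h3
          intro v
          have h7 : t0 (s * (r * (s⁻¹ * v))) = t0 (s * (s⁻¹ * v)) := hr (s⁻¹ * v)
          rw [mul_left_comm r s⁻¹ v, mul_inv_cancel_left, mul_inv_cancel_left] at h7
          exact h7
        · funext w
          rw [chi, chi]
          by_cases hw : w.right = 1
          · rw [if_pos hw, if_pos hw]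
            rw [← Equiv.sum_comp (Equiv.mulLeft s)
              (fun x => ∏ u, t0 (s * u) (w.left (x * u)))]
            apply Finset.sum_congr rfl
            intro x _
            rw [← Equiv.prod_comp (Equiv.mulLeft s) (fun u => t0 u (w.left (x * u)))]
            apply Finset.prod_congr rfl
            intro u _
            simp only [Equiv.coe_mulLeft]
            rw [mul_comm s x, mul_assoc]
          · rw [if_neg hw, if_neg hw]
    have h5 : (S.filter (fun t => chi t = chi t0)).card = Fintype.card Q := by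
      rw [h4, Finset.card_image_of_injective, Finset.card_univ]
      intro s s' hss
      have h6 : s' * s⁻¹ = 1 := by
        apply h3
        intro v
        have := congrFun hss (s⁻¹ * v)
        simp only [mul_inv_cancel_left] at this
        rw [mul_assoc, this]
      exact (mul_inv_eq_one.1 h6).symm
    rw [h5, smul_eq_mul]
  have hdisj : Disjoint E I := by
    rw [Finset.disjoint_left]
    intro χ h1 h2
    obtain ⟨⟨l, α⟩, h3, rfl⟩ := Finset.mem_image.1 h1
    obtain ⟨t, ht, h4⟩ := Finset.mem_image.1 h2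
    exact ex_ne_chi (mem_irrF.1 (Finset.mem_product.1 h3).2) l t hq.one_lt h4.symm
  have hall : ∀ φ : ℕ → ℕ, Fintype.card Q * ∑ χ ∈ E ∪ I, φ (dg χ) +
      ∑ α ∈ irrF G, φ (Fintype.card Q * dg α ^ Fintype.card Q) =
    ∑ t ∈ Tup G Q, φ (Fintype.card Q * ∏ u, dg (t u)) +
      Fintype.card Q ^ 2 * ∑ α ∈ irrF G, φ (dg α ^ Fintype.card Q) := by
    intro φ
    rw [Finset.sum_union hdisj, Nat.mul_add, hI, hE,
      ← Finset.sum_filter_add_sum_filter_not (Tup G Q) Free,
      sum_const_tup hq (fun t => φ (Fintype.card Q * ∏ u, dg (t u)))]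
    simp only [Finset.prod_const, Finset.card_univ]
    ring
  have hsub : E ∪ I ⊆ irrF (G ≀ᵣ Q) := by
    intro χ hχ
    rw [mem_irrF]
    rcases Finset.mem_union.1 hχ with h | h
    · obtain ⟨⟨l, α⟩, h3, rfl⟩ := Finset.mem_image.1 h
      exact ex_mem (mem_irrF.1 (Finset.mem_product.1 h3).2) l
    · obtain ⟨t, ht, rfl⟩ := Finset.mem_image.1 h
      obtain ⟨h2, h3⟩ := Finset.mem_filter.1 ht
      exact chi_mem t (mem_Tup.1 h2) h3
  have hsq := hall (fun n => n ^ 2)
  have hT : ∑ t ∈ Tup G Q, ∏ u, dg (t u) ^ 2 = Fintype.card G ^ Fintype.card Q := by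
    have h0 := Finset.prod_univ_sum (fun _ : Q => irrF G) (fun (_ : Q) χ => dg χ ^ 2)
    rw [Finset.prod_const, sum_sq_nat, Finset.card_univ] at h0
    rw [h0]
    rfl
  have h1 : ∑ χ ∈ E ∪ I, dg χ ^ 2 = Fintype.card (G ≀ᵣ Q) := by
    have h2 : ∑ t ∈ Tup G Q, (Fintype.card Q * ∏ u, dg (t u)) ^ 2 =
        Fintype.card Q ^ 2 * Fintype.card G ^ Fintype.card Q := by
      rw [← hT, Finset.mul_sum]
      apply Finset.sum_congr rfl
      intro t _
      rw [mul_pow, Finset.prod_pow]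
    have h3 : ∑ α ∈ irrF G, (Fintype.card Q * dg α ^ Fintype.card Q) ^ 2 =
        Fintype.card Q ^ 2 * ∑ α ∈ irrF G, (dg α ^ Fintype.card Q) ^ 2 := by
      rw [Finset.mul_sum]
      apply Finset.sum_congr rfl
      intro α _
      rw [mul_pow]
    rw [h2, h3] at hsq
    rw [card_wr]
    have h4 := Nat.add_right_cancel hsq
    apply Nat.eq_of_mul_eq_mul_left hq.pos
    rw [h4]; ring
  have heq : E ∪ I = irrF (G ≀ᵣ Q) := by
    apply Finset.Subset.antisymm hsub
    intro χ hχ
    by_contra hn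
    have h2 : insert χ (E ∪ I) ⊆ irrF (G ≀ᵣ Q) := by
      intro ψ hψ
      rcases Finset.mem_insert.1 hψ with rfl | h
      · exact hχ
      · exact hsub h
    have h3 := Finset.sum_le_sum_of_subset (f := fun χ => dg χ ^ 2) h2
    rw [Finset.sum_insert hn, h1, sum_sq_nat] at h3
    have h4 : 1 ≤ dg χ ^ 2 := Nat.one_le_pow _ _ (dg_spec (mem_irrF.1 hχ)).2
    omega
  rw [← heq]
  exact hall φ

end cnt

end Pool.Agent.TH798.MK.WQ
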