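import Pool.Agent.TH798.MK.WQ3

/-!
Sylow subgroups of `G ≀ Q` and their normalisers; powers in the group ring modulo `q ^ (e + 1)`.
-/

set_option autoImplicit false
open CategoryTheory

namespace Pool.Agent.TH798.MK.WQ
open Pool.Agent.W367.SN Pool.Agent.TH798.MK

section sylow
variable {G Q : Type} [Group G] [Group Q]

theorem conj_left (w b : G ≀ᵣ Q) (hb : b.right = 1) (x : Q) :
    (w * b * w⁻¹).left x = w.left x * b.left (w.right⁻¹ * x) * (w.left x)⁻¹ := by
  simp [RegularWreathProduct.mul_left, RegularWreathProduct.inv_left, hb, mul_assoc]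

theorem conj_right (w b : G ≀ᵣ Q) :
    (w * b * w⁻¹).right = w.right * b.right * w.right⁻¹ := rfl

/-- the base part -/
def bQ (Q : Type) [Group Q] (P : Subgroup G) : Subgroup (G ≀ᵣ Q) where
  carrier := {w | w.right = 1 ∧ ∀ x, w.left x ∈ P}
  one_mem' := ⟨rfl, fun x => P.one_mem⟩
  mul_mem' := by
    rintro v w ⟨h1, h2⟩ ⟨h3, h4⟩
    refine ⟨by rw [RegularWreathProduct.mul_right, h1, h3, one_mul], fun x => ?_⟩
    exact P.mul_mem (h2 x) (h4 _)
  inv_mem' := by
    rintro w ⟨h1, h2⟩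
    refine ⟨by rw [RegularWreathProduct.inv_right, h1, inv_one], fun x => ?_⟩
    exact P.inv_mem (h2 _)

/-- the full part -/
def wQ (Q : Type) [Group Q] (N : Subgroup G) : Subgroup (G ≀ᵣ Q) where
  carrier := {w | ∀ x, w.left x ∈ N}
  one_mem' := fun x => N.one_mem
  mul_mem' := by
    rintro v w h2 h4 x
    exact N.mul_mem (h2 x) (h4 _)
  inv_mem' := by
    rintro w h2 x
    exact N.inv_mem (h2 _)

/-- the full part is a wreath product -/
def isoQ (Q : Type) [Group Q] (N : Subgroup G) : wQ Q N ≃* (N ≀ᵣ Q) where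
  toFun w := ⟨fun x => ⟨w.1.left x, w.2 x⟩, w.1.right⟩
  invFun w := ⟨⟨fun x => w.left x, w.right⟩, fun x => (w.left x).2⟩
  left_inv _ := rfl
  right_inv _ := rfl
  map_mul' _ _ := rfl

theorem normalizer_bQ (P : Subgroup G) :
    Subgroup.normalizer ((bQ Q P : Subgroup (G ≀ᵣ Q)) : Set (G ≀ᵣ Q)) =
      wQ Q (Subgroup.normalizer (P : Set G)) := by
  have fw : ∀ w ∈ Subgroup.normalizer ((bQ Q P : Subgroup (G ≀ᵣ Q)) : Set (G ≀ᵣ Q)),
      ∀ x, ∀ g ∈ P, w.left x * g * (w.left x)⁻¹ ∈ P := by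
    intro w hw x g hg
    rw [Subgroup.mem_normalizer_iff] at hw
    have h1 : (⟨fun _ => g, 1⟩ : G ≀ᵣ Q) ∈ bQ Q P := ⟨rfl, fun _ => hg⟩
    have h2 := ((hw _).1 h1).2 x
    rw [conj_left _ _ rfl] at h2
    exact h2
  ext w
  constructor
  · intro hw x
    rw [Subgroup.mem_normalizer_iff]
    intro g
    constructor
    · exact fw w hw x g
    · intro h
      have h1 := fw w⁻¹ (Subgroup.inv_mem _ hw) (w.right⁻¹ * x) _ h
      rw [RegularWreathProduct.inv_left] at h1
      simp only [mul_inv_cancel_left, Pi.inv_apply, inv_inv] at h1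
      have h2 : (w.left x)⁻¹ * (w.left x * g * (w.left x)⁻¹) * w.left x = g := by group
      rwa [h2] at h1
  · intro hw
    rw [Subgroup.mem_normalizer_iff]
    intro b
    constructor
    · rintro ⟨h1, h2⟩
      refine ⟨by rw [conj_right, h1]; group, fun x => ?_⟩
      rw [conj_left _ _ h1]
      exact ((Subgroup.mem_normalizer_iff.1 (hw x)) _).1 (h2 _)
    · rintro ⟨h1, h2⟩
      rw [conj_right] at h1
      have h3 : b.right = 1 := by
        have h4 : w.right * b.right = w.right := mul_inv_eq_one.1 h1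
        exact mul_eq_left.1 h4
      refine ⟨h3, fun x => ?_⟩
      have h4 := h2 (w.right * x)
      rw [conj_left _ _ h3, inv_mul_cancel_left] at h4
      exact ((Subgroup.mem_normalizer_iff.1 (hw (w.right * x))) _).2 h4

/-- the base part as a power -/
def bQequiv (Q : Type) [Group Q] (P : Subgroup G) : bQ Q P ≃ (Q → P) where
  toFun w := fun x => ⟨w.1.left x, w.2.2 x⟩
  invFun f := ⟨⟨fun x => f x, 1⟩, rfl, fun x => (f x).2⟩
  left_inv := by
    rintro ⟨⟨f, s⟩, h1, h2⟩
    have h1' : s = 1 := h1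
    subst h1'
    rfl
  right_inv _ := rfl

theorem exists_sylow_wQ [Fintype G] [Fintype Q] [DecidableEq Q] {p : ℕ} [Fact p.Prime]
    (hQ : ¬ p ∣ Fintype.card Q) (P : Sylow p G) :
    ∃ R : Sylow p (G ≀ᵣ Q), (R : Subgroup (G ≀ᵣ Q)) = bQ Q (P : Subgroup G) := by
  have hc : Nat.card G ≠ 0 := Nat.card_pos.ne'
  have hcQ : Fintype.card Q ≠ 0 := Fintype.card_ne_zero
  have h1 : Nat.card (bQ Q (P : Subgroup G)) =
      p ^ (Nat.card (G ≀ᵣ Q)).factorization p := by
    rw [Nat.card_congr (bQequiv Q (P : Subgroup G)), Nat.card_fun,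
      Nat.card_eq_fintype_card (α := Q),
      Nat.card_eq_fintype_card (α := G ≀ᵣ Q), card_wr, ← Nat.card_eq_fintype_card (α := G),
      Nat.factorization_mul (pow_ne_zero _ hc) hcQ, Finsupp.add_apply,
      Nat.factorization_eq_zero_of_not_dvd hQ,
      add_zero, Nat.factorization_pow, Finsupp.smul_apply, smul_eq_mul,
      Sylow.card_eq_multiplicity P, ← pow_mul, mul_comm]
  exact ⟨Sylow.ofCard _ h1, Sylow.coe_ofCard _ h1⟩

/-- the normaliser as a wreath product -/
noncomputable def normEquivQ (P : Subgroup G) (R : Subgroup (G ≀ᵣ Q))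
    (hR : R = bQ Q P) :
    Subgroup.normalizer (R : Set (G ≀ᵣ Q)) ≃* ((Subgroup.normalizer (P : Set G)) ≀ᵣ Q) :=
  (MulEquiv.subgroupCongr (by rw [hR]; exact normalizer_bQ P)).trans (isoQ Q _)

end sylow

section ring
variable {U : Type} [CommGroup U] [Fintype U]

/-- the element of the group ring with given coefficients -/
noncomputable def AA (f : U → ℤ) : MonoidAlgebra ℤ U := ∑ z, MonoidAlgebra.single z (f z)

theorem AA_pow_dvd (q e : ℕ) (he : 1 ≤ e) (f g : U → ℤ)
    (h : ∀ z, (q : ℤ) ^ e ∣ f z - g z) (y : U) :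
    (q : ℤ) ^ (e + 1) ∣ (AA f ^ q).coeff y - (AA g ^ q).coeff y := by
  choose u hu using h
  have h1 : AA f = AA g + ((q : ℤ) ^ e) • AA u := by
    simp only [AA, Finset.smul_sum, ← Finset.sum_add_distrib]
    apply Finset.sum_congr rfl
    intro z _
    rw [MonoidAlgebra.smul_single, ← MonoidAlgebra.single_add, smul_eq_mul]
    congr 1
    linarith [hu z]
  obtain ⟨k, hk⟩ := Polynomial.binomExpansion (Polynomial.X ^ q : Polynomial (MonoidAlgebra ℤ U))
    (AA g) (((q : ℤ) ^ e) • AA u)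
  simp only [Polynomial.eval_pow, Polynomial.eval_X, Polynomial.derivative_X_pow,
    Polynomial.eval_mul, Polynomial.eval_C] at hk
  have h2 : AA f ^ q = AA g ^ q + ((q : ℤ) ^ (e + 1)) • (AA g ^ (q - 1) * AA u) +
      ((q : ℤ) ^ e * (q : ℤ) ^ e) • (k * AA u ^ 2) := by
    rw [h1, hk]
    congr 1
    · congr 1
      rw [mul_smul_comm, pow_succ, mul_smul, mul_assoc]
      congr 1
      rw [← Int.cast_natCast (R := MonoidAlgebra ℤ U) q, zsmul_eq_mul]
    · rw [smul_pow, mul_smul_comm]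
      congr 1
      ring
  rw [h2]
  simp only [MonoidAlgebra.coeff_add, Finsupp.add_apply, MonoidAlgebra.coeff_smul_apply,
    smul_eq_mul]
  obtain ⟨e', rfl⟩ : ∃ e', e = e' + 1 := ⟨e - 1, by omega⟩
  refine ⟨(AA g ^ (q - 1) * AA u).coeff y + (q : ℤ) ^ e' * (k * AA u ^ 2).coeff y, ?_⟩
  ring

end ring

end Pool.Agent.TH798.MK.WQ
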