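import Pool.Agent.TH798.MK.WQ4
import Pool.Agent.TH798.MK.Par2

/-!
A congruence modulo a prime `q` for one class count suffices.
-/

set_option autoImplicit false
open CategoryTheory

namespace Pool.Agent.TH798.MK.WQ
open Pool.Agent.W367.SN Pool.Agent.TH798.MK

section
variable {p : ℕ} [Fact p.Prime] {G : Type} [Group G] [Fintype G]

open Classical in
/-- the class of a character -/
noncomputable def kap (p : ℕ) [Fact p.Prime] (χ : G → ℂ) : (ZMod p)ˣ :=
  if h : ((dg χ : ℕ) : ZMod p) ≠ 0 then (Units.mk0 _ h) ^ 2 else 1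

omit [Fintype G] in
theorem kap_val {χ : G → ℂ} (h : ((dg χ : ℕ) : ZMod p) ≠ 0) :
    ((kap p χ : (ZMod p)ˣ) : ZMod p) = ((dg χ : ℕ) : ZMod p) ^ 2 := by
  rw [kap, dif_pos h, Units.val_pow_eq_pow_val, Units.val_mk0]

open Classical in
/-- the irreducible characters of degree prime to `p` -/
noncomputable def SS (p : ℕ) (G : Type) [Group G] [Fintype G] : Finset (G → ℂ) :=
  (irrF G).filter (fun χ => ((dg χ : ℕ) : ZMod p) ≠ 0)

theorem AA_eq : AA (fz p G) = ∑ χ ∈ SS p G, MonoidAlgebra.of ℤ (ZMod p)ˣ (kap p χ) := by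
  classical
  rw [← Finset.sum_fiberwise (SS p G) (kap p), AA]
  apply Finset.sum_congr rfl
  intro z _
  have h1 : (SS p G).filter (fun χ => kap p χ = z) = aF p (z : ZMod p) G := by
    ext χ
    rw [Finset.mem_filter, SS, Finset.mem_filter, mem_irrF, mem_aF]
    constructor
    · rintro ⟨⟨h1, h2⟩, h3⟩
      exact ⟨h1, by rw [← h3, kap_val h2]⟩
    · rintro ⟨h1, h2⟩
      have h3 : ((dg χ : ℕ) : ZMod p) ≠ 0 := by
        intro h0
        rw [h0] at h2
        apply Units.ne_zero z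
        rw [← h2]; ring
      exact ⟨⟨h1, h3⟩, Units.ext (by rw [kap_val h3, h2])⟩
  have h2 : ∀ χ ∈ (SS p G).filter (fun χ => kap p χ = z),
      MonoidAlgebra.of ℤ (ZMod p)ˣ (kap p χ) = MonoidAlgebra.single z (1 : ℤ) := by
    intro χ hχ
    rw [(Finset.mem_filter.1 hχ).2]
    rfl
  rw [Finset.sum_congr rfl h2, Finset.sum_const, h1, MonoidAlgebra.smul_single, fz]
  congr 1
  simp

open Classical in
theorem T_count {Q : Type} [Fintype Q] [DecidableEq Q] (y : (ZMod p)ˣ) :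
    (AA (fz p G) ^ Fintype.card Q).coeff y =
      (((Tup G Q).filter (fun t => (∏ u, ((dg (t u) : ℕ) : ZMod p) ^ 2) = (y : ZMod p))).card : ℤ) := by
  have h1 : AA (fz p G) ^ Fintype.card Q =
      ∑ t ∈ Fintype.piFinset (fun _ : Q => SS p G),
        MonoidAlgebra.of ℤ (ZMod p)ˣ (∏ u, kap p (t u)) := by
    rw [AA_eq, ← Finset.card_univ, ← Finset.prod_const, Finset.prod_univ_sum]
    apply Finset.sum_congr rfl
    intro t _
    rw [map_prod]
  rw [h1, MonoidAlgebra.coeff_sum, Finsupp.finset_sum_apply]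
  have h2 : ∀ t : Q → (G → ℂ), (MonoidAlgebra.of ℤ (ZMod p)ˣ (∏ u, kap p (t u))).coeff y =
      if ∏ u, kap p (t u) = y then 1 else 0 := by
    intro t
    rw [MonoidAlgebra.of_apply, MonoidAlgebra.coeff_single, Finsupp.single_apply]
  simp only [h2]
  rw [Finset.sum_boole]
  congr 2
  ext t
  rw [Finset.mem_filter, Finset.mem_filter, Fintype.mem_piFinset, mem_Tup]
  have hval : (∀ u, ((dg (t u) : ℕ) : ZMod p) ≠ 0) →
      ((∏ u, kap p (t u) : (ZMod p)ˣ) : ZMod p) = ∏ u, ((dg (t u) : ℕ) : ZMod p) ^ 2 := by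
    intro h
    rw [Units.coe_prod]
    apply Finset.prod_congr rfl
    intro u _
    exact kap_val (h u)
  constructor
  · rintro ⟨h3, h4⟩
    have h5 : ∀ u, t u ∈ IrrC G ∧ ((dg (t u) : ℕ) : ZMod p) ≠ 0 := by
      intro u
      have := h3 u
      rw [SS, Finset.mem_filter, mem_irrF] at this
      exact this
    refine ⟨fun u => (h5 u).1, ?_⟩
    rw [← hval (fun u => (h5 u).2), h4]
  · rintro ⟨h3, h4⟩
    have h5 : ∀ u, ((dg (t u) : ℕ) : ZMod p) ≠ 0 := by
      intro u h0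
      apply Units.ne_zero y
      rw [← h4]
      apply Finset.prod_eq_zero (Finset.mem_univ u)
      rw [h0]; ring
    refine ⟨fun u => ?_, Units.ext (by rw [hval h5, h4])⟩
    rw [SS, Finset.mem_filter, mem_irrF]
    exact ⟨h3 u, h5 u⟩

theorem sq_pow_inj {q : ℕ} (hq : q.Prime) (hco : Nat.Coprime q ((p - 1) / 2)) (w : (ZMod p)ˣ)
    (d : ZMod p) (h : d ^ (2 * q) = (w : ZMod p) ^ (2 * q)) : d ^ 2 = (w : ZMod p) ^ 2 := by
  have hp := (Fact.out : p.Prime)
  have hd : d ≠ 0 := by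
    intro h0
    rw [h0, zero_pow (by have := hq.pos; omega)] at h
    exact pow_ne_zero _ (Units.ne_zero w) h.symm
  have hp2 : p ≠ 2 := by
    rintro rfl
    rw [show (2 - 1) / 2 = 0 from rfl, Nat.coprime_zero_right] at hco
    exact hq.one_lt.ne' hco
  have hodd : 2 * ((p - 1) / 2) = p - 1 := by
    have := hp.eq_two_or_odd
    omega
  let a : (ZMod p)ˣ := Units.mk0 d hd * w⁻¹
  have h1 : (a ^ 2) ^ q = 1 := by
    have h2 : (Units.mk0 d hd) ^ (2 * q) = w ^ (2 * q) := by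
      apply Units.ext
      rw [Units.val_pow_eq_pow_val, Units.val_pow_eq_pow_val, Units.val_mk0, h]
    rw [← pow_mul, mul_pow, h2, ← mul_pow, mul_inv_cancel, one_pow]
  have h2 : (a ^ 2) ^ ((p - 1) / 2) = 1 := by
    rw [← pow_mul, hodd]
    exact ZMod.units_pow_card_sub_one_eq_one p a
  have h3 : a ^ 2 = 1 := by
    have := pow_gcd_eq_one.2 ⟨h1, h2⟩
    rwa [hco.gcd_eq_one, pow_one] at this
  rw [mul_pow, inv_pow, mul_inv_eq_one] at h3
  have := congrArg (fun u : (ZMod p)ˣ => (u : ZMod p)) h3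
  simpa using this

open Classical in
theorem ident_q {Q : Type} [CommGroup Q] [Fintype Q] [DecidableEq Q]
    (hq : (Fintype.card Q).Prime) (hqp : ((Fintype.card Q : ℕ) : ZMod p) ≠ 0)
    (hco : Nat.Coprime (Fintype.card Q) ((p - 1) / 2)) (w v : (ZMod p)ˣ)
    (hv : (v : ZMod p) = ((Fintype.card Q : ℕ) : ZMod p) ^ 2 *
      (w : ZMod p) ^ (2 * Fintype.card Q)) :
    (Fintype.card Q : ℤ) * fz p (G ≀ᵣ Q) v + fz p G (w ^ 2) =
      (AA (fz p G) ^ Fintype.card Q).coeff (w ^ (2 * Fintype.card Q)) +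
      (Fintype.card Q : ℤ) ^ 2 *
        ∑ z ∈ (Finset.univ : Finset (ZMod p)ˣ).filter (fun z => z ^ Fintype.card Q = v),
          fz p G z := by
  set q := Fintype.card Q with hqdef
  have h := count_q (G := G) (Q := Q) hq (fun n => if ((n : ℕ) : ZMod p) ^ 2 = (v : ZMod p)
    then 1 else 0)
  rw [← hqdef] at h
  simp only [← Finset.card_filter] at h
  have e0 : (irrF (G ≀ᵣ Q)).filter (fun χ => ((dg χ : ℕ) : ZMod p) ^ 2 = (v : ZMod p)) =
      aF p (v : ZMod p) (G ≀ᵣ Q) := rfl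
  have e1 : (irrF G).filter (fun α => ((q * dg α ^ q : ℕ) : ZMod p) ^ 2 = (v : ZMod p)) =
      aF p (((w ^ 2 : (ZMod p)ˣ) : ZMod p)) G := by
    ext χ
    rw [Finset.mem_filter, mem_irrF, mem_aF, Units.val_pow_eq_pow_val]
    apply and_congr_right
    intro _
    rw [hv]
    push_cast
    constructor
    · intro h1
      apply sq_pow_inj hq hco
      have h2 : ((q : ℕ) : ZMod p) ^ 2 * ((dg χ : ℕ) : ZMod p) ^ (2 * q) =
          ((q : ℕ) : ZMod p) ^ 2 * (w : ZMod p) ^ (2 * q) := by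
        rw [← h1]; ring
      exact mul_left_cancel₀ (pow_ne_zero 2 hqp) h2
    · intro h1
      have h2 : ((dg χ : ℕ) : ZMod p) ^ (2 * q) = (w : ZMod p) ^ (2 * q) := by
        rw [pow_mul, h1, ← pow_mul]
      rw [← h2]; ring
  have e2 : (Tup G Q).filter (fun t => ((q * ∏ u, dg (t u) : ℕ) : ZMod p) ^ 2 = (v : ZMod p)) =
      (Tup G Q).filter (fun t => (∏ u, ((dg (t u) : ℕ) : ZMod p) ^ 2) =
        ((w ^ (2 * q) : (ZMod p)ˣ) : ZMod p)) := by
    apply Finset.filter_congr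
    intro t _
    rw [hv, Units.val_pow_eq_pow_val, Finset.prod_pow]
    push_cast
    rw [mul_pow]
    constructor
    · intro h1
      exact mul_left_cancel₀ (pow_ne_zero 2 hqp) h1
    · intro h1
      rw [h1]
  have e4 : ((irrF G).filter (fun α => ((dg α ^ q : ℕ) : ZMod p) ^ 2 = (v : ZMod p))).card =
      ∑ z ∈ (Finset.univ : Finset (ZMod p)ˣ).filter (fun z => z ^ q = v),
        (aF p (z : ZMod p) G).card := by
    have e3 : ((irrF G).filter (fun α => ((dg α ^ q : ℕ) : ZMod p) ^ 2 = (v : ZMod p))) =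
        ((Finset.univ : Finset (ZMod p)ˣ).filter (fun z => z ^ q = v)).biUnion
          (fun z => aF p (z : ZMod p) G) := by
      ext α
      simp only [Finset.mem_filter, Finset.mem_biUnion, Finset.mem_univ,
        true_and, mem_irrF, mem_aF]
      constructor
      · rintro ⟨h1, h2⟩
        push_cast at h2
        have h7 : (((dg α : ℕ) : ZMod p) ^ 2) ^ q = (v : ZMod p) := by
          rw [← h2]; ring
        have h5 : ((dg α : ℕ) : ZMod p) ^ 2 ≠ 0 := by
          intro h6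
          rw [h6, zero_pow hq.ne_zero] at h7
          exact Units.ne_zero v h7.symm
        refine ⟨Units.mk0 _ h5, ?_, h1, rfl⟩
        apply Units.ext
        rw [Units.val_pow_eq_pow_val, Units.val_mk0, h7]
      · rintro ⟨z, hz, h1, h2⟩
        refine ⟨h1, ?_⟩
        push_cast
        have h7 : (((dg α : ℕ) : ZMod p) ^ q) ^ 2 = (((dg α : ℕ) : ZMod p) ^ 2) ^ q := by ring
        rw [h7, h2, ← hz, Units.val_pow_eq_pow_val]
    rw [e3, Finset.card_biUnion]
    intro z _ z' _ hne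
    refine Finset.disjoint_left.2 ?_
    intro α h1 h2
    exact hne (Units.ext ((mem_aF.1 h1).2.symm.trans (mem_aF.1 h2).2))
  rw [e0, e1, e2, e4] at h
  rw [hqdef, T_count (Q := Q), ← hqdef]
  simp only [fz]
  exact_mod_cast h

end

/-- congruence modulo `q ^ e` in every class -/
def ParQ (p q e : ℕ) : Prop :=
  ∀ (G : Type) [Group G] [Finite G] (P : Sylow p G) (k : ZMod p), k ≠ 0 →
    (q : ℤ) ^ e ∣ (cnt p k G : ℤ) - cnt p k (Subgroup.normalizer ((P : Subgroup G) : Set G))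

section
variable {p : ℕ} [Fact p.Prime]

theorem parq_fz {q e : ℕ} (h : ParQ p q e) {G : Type} [Group G] [Fintype G] (P : Sylow p G)
    [Fintype (Subgroup.normalizer ((P : Subgroup G) : Set G))] (z : (ZMod p)ˣ) :
    (q : ℤ) ^ e ∣ fz p G z - fz p (Subgroup.normalizer ((P : Subgroup G) : Set G)) z := by
  by_cases hz : ∃ w : (ZMod p)ˣ, z = w ^ 2
  · obtain ⟨w, rfl⟩ := hz
    rw [← cnt_fz, ← cnt_fz]
    exact h G P w (Units.ne_zero w)
  · rw [fz_nonsq hz, fz_nonsq hz, sub_self]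
    exact dvd_zero _

theorem parq_step {q : ℕ} (hq : q.Prime) (hqp : q ≠ p) (hco : Nat.Coprime q ((p - 1) / 2))
    {e : ℕ} (he : 1 ≤ e) (h : ParQ p q e) : ParQ p q (e + 1) := by
  classical
  intro G _ _ P k hk
  have hp := (Fact.out : p.Prime)
  have : Fintype G := Fintype.ofFinite G
  set N := Subgroup.normalizer ((P : Subgroup G) : Set G) with hN
  have : Fintype N := Fintype.ofFinite N
  have : NeZero q := ⟨hq.pos.ne'⟩
  let Q := Multiplicative (ZMod q)
  have hQ : Fintype.card Q = q := by simp [Q, ZMod.card]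
  have hpq : ¬ p ∣ q := fun hd => hqp ((Nat.prime_dvd_prime_iff_eq hp hq).1 hd).symm
  have hq0 : ((q : ℕ) : ZMod p) ≠ 0 := by rwa [Ne, ZMod.natCast_eq_zero_iff]
  let w : (ZMod p)ˣ := Units.mk0 k hk
  let u : (ZMod p)ˣ := Units.mk0 ((q : ℕ) : ZMod p) hq0 * w ^ q
  have hv : ((u ^ 2 : (ZMod p)ˣ) : ZMod p) = ((Fintype.card Q : ℕ) : ZMod p) ^ 2 *
      (w : ZMod p) ^ (2 * Fintype.card Q) := by
    rw [hQ]
    simp only [u, Units.val_pow_eq_pow_val, Units.val_mul, Units.val_mk0]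
    ring
  have i1 := ident_q (G := G) (Q := Q) (by rw [hQ]; exact hq) (by rw [hQ]; exact hq0)
    (by rw [hQ]; exact hco) w (u ^ 2) hv
  have i2 := ident_q (G := N) (Q := Q) (by rw [hQ]; exact hq) (by rw [hQ]; exact hq0)
    (by rw [hQ]; exact hco) w (u ^ 2) hv
  rw [hQ] at i1 i2
  obtain ⟨R, hR⟩ := exists_sylow_wQ (Q := Q) (by rw [hQ]; exact hpq) P
  have hF : (q : ℤ) ^ e ∣ fz p (G ≀ᵣ Q) (u ^ 2) - fz p (N ≀ᵣ Q) (u ^ 2) := by
    have h3 := h (G ≀ᵣ Q) R (u : ZMod p) (Units.ne_zero u)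
    rw [cnt_equiv (p := p) (u : ZMod p) (normEquivQ (P : Subgroup G) (R : Subgroup (G ≀ᵣ Q)) hR),
      cnt_fz, cnt_fz] at h3
    exact h3
  have hT := AA_pow_dvd q e he (fz p G) (fz p N) (fun z => parq_fz h P z) (w ^ (2 * q))
  have hS : (q : ℤ) ^ e ∣ (∑ z ∈ (Finset.univ : Finset (ZMod p)ˣ).filter
      (fun z => z ^ q = u ^ 2), fz p G z) -
      ∑ z ∈ (Finset.univ : Finset (ZMod p)ˣ).filter (fun z => z ^ q = u ^ 2), fz p N z := by
    rw [← Finset.sum_sub_distrib]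
    exact Finset.dvd_sum (fun z _ => parq_fz h P z)
  have h4 : (q : ℤ) ^ (e + 1) ∣ fz p G (w ^ 2) - fz p N (w ^ 2) := by
    obtain ⟨a, ha⟩ := hT
    obtain ⟨b, hb⟩ := hS
    obtain ⟨c, hc⟩ := hF
    refine ⟨a + q * b - c, ?_⟩
    have h5 : fz p G (w ^ 2) - fz p N (w ^ 2) =
        ((AA (fz p G) ^ q).coeff (w ^ (2 * q)) - (AA (fz p N) ^ q).coeff (w ^ (2 * q))) +
        (q : ℤ) ^ 2 * ((∑ z ∈ (Finset.univ : Finset (ZMod p)ˣ).filter
      (fun z => z ^ q = u ^ 2), fz p G z) -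
      ∑ z ∈ (Finset.univ : Finset (ZMod p)ˣ).filter (fun z => z ^ q = u ^ 2), fz p N z) -
        q * (fz p (G ≀ᵣ Q) (u ^ 2) - fz p (N ≀ᵣ Q) (u ^ 2)) := by
      linear_combination i1 - i2
    rw [h5, ha, hb, hc]
    ring
  rw [← cnt_fz, ← cnt_fz] at h4
  exact h4

theorem parq_all {q : ℕ} (hq : q.Prime) (hqp : q ≠ p) (hco : Nat.Coprime q ((p - 1) / 2))
    (h : ParQ p q 1) (e : ℕ) (he : 1 ≤ e) : ParQ p q e := by
  induction e, he using Nat.le_induction with
  | base => exact h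
  | succ n hn ih => exact parq_step hq hqp hco hn ih

theorem parq_exact {q : ℕ} (hq : q.Prime) (hqp : q ≠ p) (hco : Nat.Coprime q ((p - 1) / 2))
    (h : ParQ p q 1) (G : Type) [Group G] [Finite G] (P : Sylow p G)
    (k : ZMod p) (hk : k ≠ 0) :
    cnt p k G = cnt p k (Subgroup.normalizer ((P : Subgroup G) : Set G)) := by
  set d : ℤ := (cnt p k G : ℤ) - cnt p k (Subgroup.normalizer ((P : Subgroup G) : Set G)) with hd
  have h1 := parq_all hq hqp hco h (d.natAbs + 1) (by omega) G P k hk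
  have h2 : |d| < (q : ℤ) ^ (d.natAbs + 1) := by
    rw [Int.abs_eq_natAbs]
    have h3 : d.natAbs < q ^ (d.natAbs + 1) :=
      (Nat.lt_pow_self hq.one_lt).trans (Nat.pow_lt_pow_right hq.one_lt (by omega))
    exact_mod_cast h3
  have h3 : d = 0 := Int.eq_zero_of_abs_lt_dvd h1 h2
  rw [hd, sub_eq_zero] at h3
  exact_mod_cast h3

theorem parq_of_one {q : ℕ} {k : ZMod p} (hk : k ≠ 0)
    (h : ∀ (G : Type) [Group G] [Finite G] (P : Sylow p G),
      cnt p k G ≡ cnt p k (Subgroup.normalizer ((P : Subgroup G) : Set G)) [MOD q]) :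
    ParQ p q 1 := by
  intro G _ _ P j hj
  have : Fintype G := Fintype.ofFinite G
  set N := Subgroup.normalizer ((P : Subgroup G) : Set G) with hN
  have : Fintype N := Fintype.ofFinite N
  rw [pow_one]
  by_cases hkj : k * j⁻¹ = -1
  · have h1 : k = -j := by
      have := congrArg (· * j) hkj
      simpa [mul_assoc, inv_mul_cancel₀ hj] using this
    have h2 := h G P
    rw [h1, cnt_neg, cnt_neg] at h2
    have h3 := (Nat.modEq_iff_dvd.1 h2.symm)
    exact_mod_cast h3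
  · have ha : k * j⁻¹ + 1 ≠ 0 := fun h0 => hkj (eq_neg_of_add_eq_zero_left h0)
    obtain ⟨r, hr, hrp, hra⟩ := Nat.forall_exists_prime_gt_and_eq_mod
      (isUnit_iff_ne_zero.2 ha) (max 2 p)
    have hr2 : 2 < r := lt_of_le_of_lt (le_max_left _ _) hr
    have hrp' : p < r := lt_of_le_of_lt (le_max_right _ _) hr
    have : Fact r.Prime := ⟨hrp⟩
    have hc : ((r - 1 : ℕ) : ZMod p) = k * j⁻¹ := by
      rw [Nat.cast_sub (by omega), hra]; simp
    have hpr : ¬ p ∣ r - 1 := by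
      rw [← ZMod.natCast_eq_zero_iff, hc]
      exact mul_ne_zero hk (inv_ne_zero hj)
    have hH : ¬ p ∣ Nat.card (Af r) := by
      rw [Nat.card_eq_fintype_card, Af.card_eq]
      intro hd
      rcases (Fact.out : p.Prime).dvd_mul.1 hd with h1 | h1
      · exact hpr h1
      · have := (Nat.prime_dvd_prime_iff_eq (Fact.out : p.Prime) hrp).1 h1
        omega
    obtain ⟨R, hR⟩ := exists_sylow_prod (H := Af r) P hH
    have h1 := h (G × Af r) R
    have h0 := h G P
    have : Fintype (Subgroup.normalizer ((R : Subgroup (G × Af r)) : Set (G × Af r))) :=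
      Fintype.ofFinite _
    rw [cnt_equiv (p := p) k (normEquiv (P : Subgroup G) (R : Subgroup (G × Af r)) hR),
      cnt_eq, cnt_eq, prod_af hr2 hpr, prod_af hr2 hpr, hc] at h1
    have h2 : k * (k * j⁻¹)⁻¹ = j := by
      rw [mul_inv, inv_inv, ← mul_assoc, mul_inv_cancel₀ hk, one_mul]
    rw [h2] at h1
    rw [cnt_eq, cnt_eq] at h0
    rw [cnt_eq, cnt_eq]
    obtain ⟨s, hs⟩ := Nat.modEq_iff_dvd.1 h1.symm
    obtain ⟨t, ht⟩ := Nat.modEq_iff_dvd.1 h0.symm
    push_cast at hs ht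
    refine ⟨s - ((r - 1 : ℕ) : ℤ) * t, ?_⟩
    push_cast
    linear_combination hs - ((r - 1 : ℕ) : ℤ) * ht

end

end Pool.Agent.TH798.MK.WQ
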