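import Pool.Agent.TH798.MK.Cnt
import Pool.Agent.W367.SN.Wr

/-!
Counting irreducible characters of `M ≀ C_2` by the square of the degree modulo `p`.
-/

set_option autoImplicit false
open CategoryTheory

namespace Pool.Agent.TH798.MK
open Pool.Agent.W367.SN

section
variable {M : Type} [Group M] [Fintype M]

omit [Fintype M] in
theorem dg_ext {α : M → ℂ} (hα : α ∈ IrrC M) (ε : ℂ) : dg (ext ε α) = dg α ^ 2 := by
  apply dg_of
  rw [Wr.one_def, ext_f, (dg_spec hα).1]
  push_cast; ring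

omit [Fintype M] in
theorem dg_ind {α β : M → ℂ} (hα : α ∈ IrrC M) (hβ : β ∈ IrrC M) :
    dg (ind α β) = 2 * dg α * dg β := by
  apply dg_of
  rw [Wr.one_def, ind_f, (dg_spec hα).1, (dg_spec hβ).1]
  push_cast; ring

omit [Fintype M] in
theorem ext_inj {α α' : M → ℂ} {ε ε' : ℂ} (hα : α ∈ IrrC M) (hα' : α' ∈ IrrC M)
    (hε : ε = 1 ∨ ε = -1) (hε' : ε' = 1 ∨ ε' = -1) (h : ext ε α = ext ε' α') :
    ε = ε' ∧ α = α' := by
  have h1 : ∀ a, ε * α a = ε' * α' a := by
    intro a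
    have := congrFun h ⟨a, 1, true⟩
    rw [ext_t, ext_t, mul_one] at this
    exact this
  have h2 := h1 1
  rw [(dg_spec hα).1, (dg_spec hα').1] at h2
  have hd := (dg_spec hα).2
  have he : ε = ε' := by
    rcases hε with rfl | rfl <;> rcases hε' with rfl | rfl
    · rfl
    · exfalso
      have : ((dg α + dg α' : ℕ) : ℂ) = 0 := by push_cast; linear_combination h2
      rw [Nat.cast_eq_zero] at this; omega
    · exfalso
      have : ((dg α + dg α' : ℕ) : ℂ) = 0 := by push_cast; linear_combination -h2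
      rw [Nat.cast_eq_zero] at this; omega
    · rfl
  subst he
  refine ⟨rfl, funext fun a => ?_⟩
  have hε0 : ε ≠ 0 := by rcases hε with rfl | rfl <;> norm_num
  exact mul_left_cancel₀ hε0 (h1 a)

omit [Fintype M] in
theorem ext_ne_ind {α α' β' : M → ℂ} {ε : ℂ} (hα : α ∈ IrrC M) (hε : ε = 1 ∨ ε = -1) :
    ext ε α ≠ ind α' β' := by
  intro h
  have := congrFun h ⟨1, 1, true⟩
  rw [ext_t, ind_t, mul_one] at this
  rcases mul_eq_zero.1 this with h1 | h1
  · rcases hε with rfl | rfl <;> norm_num at h1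
  · exact irr_one_ne hα h1

omit [Group M] [Fintype M] in
theorem ind_comm (α β : M → ℂ) : ind α β = ind β α := by
  funext w
  obtain ⟨a, b, e⟩ := w
  cases e
  · rw [ind_f, ind_f]; ring
  · rfl

theorem ind_eq {α β α' β' : M → ℂ} (hα : α ∈ IrrC M) (hβ : β ∈ IrrC M) (hα' : α' ∈ IrrC M)
    (hβ' : β' ∈ IrrC M) (hne' : α' ≠ β') (h : ind α β = ind α' β') :
    (α = α' ∧ β = β') ∨ (α = β' ∧ β = α') := by
  have key : ∀ γ δ : M → ℂ, ∑ a, ∑ b, ind γ δ ⟨a, b, false⟩ * (α' a⁻¹ * β' b⁻¹) =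
      (∑ a, γ a * α' a⁻¹) * (∑ b, δ b * β' b⁻¹) + (∑ a, δ a * α' a⁻¹) * (∑ b, γ b * β' b⁻¹) := by
    intro γ δ
    rw [Finset.sum_mul_sum, Finset.sum_mul_sum, ← Finset.sum_add_distrib]
    apply Finset.sum_congr rfl
    intro a _
    rw [← Finset.sum_add_distrib]
    apply Finset.sum_congr rfl
    intro b _
    rw [ind_f]; ring
  have k1 := key α β
  have k2 := key α' β'
  rw [h] at k1
  rw [k1, irr_norm hα', irr_norm hβ', irr_orth hβ' hα' hne'.symm, zero_mul, add_zero] at k2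
  have hc : (Fintype.card M : ℂ) ≠ 0 := by exact_mod_cast Fintype.card_ne_zero
  have hcc : (Fintype.card M : ℂ) * Fintype.card M ≠ 0 := mul_ne_zero hc hc
  by_cases h1 : α = α'
  · by_cases h2 : β = β'
    · exact Or.inl ⟨h1, h2⟩
    · rw [irr_orth hβ hβ' h2, mul_zero, zero_add] at k2
      by_cases h3 : β = α'
      · by_cases h4 : α = β'
        · exact Or.inr ⟨h4, h3⟩
        · rw [irr_orth hα hβ' h4, mul_zero] at k2
          exact absurd k2.symm hcc
      · rw [irr_orth hβ hα' h3, zero_mul] at k2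
        exact absurd k2.symm hcc
  · rw [irr_orth hα hα' h1, zero_mul, zero_add] at k2
    by_cases h3 : β = α'
    · by_cases h4 : α = β'
      · exact Or.inr ⟨h4, h3⟩
      · rw [irr_orth hα hβ' h4, mul_zero] at k2
        exact absurd k2.symm hcc
    · rw [irr_orth hβ hα' h3, zero_mul] at k2
      exact absurd k2.symm hcc

open Classical in
/-- irreducible characters with the square of the degree `= x` modulo `p` -/
noncomputable def aF (p : ℕ) (x : ZMod p) (G : Type) [Group G] [Fintype G] : Finset (G → ℂ) :=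
  (irrF G).filter (fun χ => ((dg χ : ℕ) : ZMod p) ^ 2 = x)

open Classical in
theorem wr_count (p : ℕ) (x : ZMod p) :
    2 * (aF p x (Wr M)).card +
      ((irrF M).filter (fun α => 4 * ((dg α : ℕ) : ZMod p) ^ 4 = x)).card =
    (((irrF M) ×ˢ (irrF M)).filter
      (fun y => 4 * ((dg y.1 : ℕ) : ZMod p) ^ 2 * ((dg y.2 : ℕ) : ZMod p) ^ 2 = x)).card +
    4 * ((irrF M).filter (fun α => ((dg α : ℕ) : ZMod p) ^ 4 = x)).card := by
  set D := (irrF M).filter (fun α => ((dg α : ℕ) : ZMod p) ^ 4 = x) with hD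
  set T := (((irrF M) ×ˢ (irrF M)).filter
      (fun y => 4 * ((dg y.1 : ℕ) : ZMod p) ^ 2 * ((dg y.2 : ℕ) : ZMod p) ^ 2 = x)) with hT
  set S := T.filter (fun y => ¬ y.1 = y.2) with hS
  let E : Finset (Wr M → ℂ) := (({1, -1} : Finset ℂ) ×ˢ D).image (fun y => ext y.1 y.2)
  let I : Finset (Wr M → ℂ) := S.image (fun y => ind y.1 y.2)
  have hE : E.card = 2 * D.card := by
    rw [Finset.card_image_of_injOn, Finset.card_product, Finset.card_pair (by norm_num)]
    rintro ⟨ε, α⟩ h ⟨ε', α'⟩ h' heq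
    obtain ⟨h1, h2⟩ := Finset.mem_product.1 (Finset.mem_coe.1 h)
    obtain ⟨h1', h2'⟩ := Finset.mem_product.1 (Finset.mem_coe.1 h')
    have := ext_inj (mem_irrF.1 (Finset.mem_filter.1 h2).1)
      (mem_irrF.1 (Finset.mem_filter.1 h2').1) (by simpa using h1) (by simpa using h1') heq
    exact Prod.ext this.1 this.2
  have hSm : ∀ y ∈ S, y.1 ∈ IrrC M ∧ y.2 ∈ IrrC M ∧ y.1 ≠ y.2 ∧
      4 * ((dg y.1 : ℕ) : ZMod p) ^ 2 * ((dg y.2 : ℕ) : ZMod p) ^ 2 = x := by
    intro y hy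
    obtain ⟨h1, h2⟩ := Finset.mem_filter.1 hy
    obtain ⟨h3, h4⟩ := Finset.mem_filter.1 h1
    obtain ⟨h5, h6⟩ := Finset.mem_product.1 h3
    exact ⟨mem_irrF.1 h5, mem_irrF.1 h6, h2, h4⟩
  have hSm' : ∀ α β : M → ℂ, α ∈ IrrC M → β ∈ IrrC M → α ≠ β →
      4 * ((dg α : ℕ) : ZMod p) ^ 2 * ((dg β : ℕ) : ZMod p) ^ 2 = x → (α, β) ∈ S := by
    intro α β h1 h2 h3 h4
    exact Finset.mem_filter.2 ⟨Finset.mem_filter.2
      ⟨Finset.mem_product.2 ⟨mem_irrF.2 h1, mem_irrF.2 h2⟩, h4⟩, h3⟩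
  have hI : S.card = 2 * I.card := by
    rw [Finset.card_eq_sum_card_image (fun y : (M → ℂ) × (M → ℂ) => ind y.1 y.2) S,
      Finset.sum_const_nat (m := 2), mul_comm]
    intro b hb
    obtain ⟨⟨α, β⟩, hy, rfl⟩ := Finset.mem_image.1 hb
    obtain ⟨h1, h2, h3, h4⟩ := hSm _ hy
    have : S.filter (fun y : (M → ℂ) × (M → ℂ) => ind y.1 y.2 = ind α β) =
        {(α, β), (β, α)} := by
      ext ⟨γ, δ⟩
      rw [Finset.mem_filter]
      constructor
      · rintro ⟨h5, h6⟩
        obtain ⟨h7, h8, h9, h10⟩ := hSm _ h5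
        rcases ind_eq h7 h8 h1 h2 h3 h6 with ⟨h11, h12⟩ | ⟨h11, h12⟩
        · change γ = α at h11
          change δ = β at h12
          rw [h11, h12]; simp
        · change γ = β at h11
          change δ = α at h12
          rw [h11, h12]; simp
      · intro h5
        rw [Finset.mem_insert, Finset.mem_singleton] at h5
        rcases h5 with h5 | h5
        · obtain ⟨rfl, rfl⟩ := Prod.mk.inj h5
          exact ⟨hy, rfl⟩
        · obtain ⟨rfl, rfl⟩ := Prod.mk.inj h5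
          refine ⟨hSm' _ _ h2 h1 (Ne.symm h3) ?_, ind_comm _ _⟩
          rw [← h4]; ring
    rw [this, Finset.card_pair]
    intro h5
    exact h3 (Prod.mk.inj h5).1
  have hU : aF p x (Wr M) = E ∪ I := by
    ext χ
    rw [aF, Finset.mem_filter, mem_irrF, Finset.mem_union]
    constructor
    · rintro ⟨h1, h2⟩
      rcases wr_classify h1 with ⟨α, hα, ε, hε, rfl⟩ | ⟨α, hα, β, hβ, hne, rfl⟩
      · left
        apply Finset.mem_image.2
        refine ⟨(ε, α), Finset.mem_product.2 ⟨?_, Finset.mem_filter.2 ⟨mem_irrF.2 hα, ?_⟩⟩, rfl⟩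
        · rcases hε with rfl | rfl <;> simp
        · rw [dg_ext hα] at h2
          rw [← h2]; push_cast; ring
      · right
        apply Finset.mem_image.2
        refine ⟨(α, β), hSm' α β hα hβ hne ?_, rfl⟩
        rw [dg_ind hα hβ] at h2
        rw [← h2]; push_cast; ring
    · rintro (h | h)
      · obtain ⟨⟨ε, α⟩, h1, rfl⟩ := Finset.mem_image.1 h
        obtain ⟨h2, h3⟩ := Finset.mem_product.1 h1
        obtain ⟨h4, h5⟩ := Finset.mem_filter.1 h3
        have hε : ε = 1 ∨ ε = -1 := by simpa using h2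
        refine ⟨ext_mem (mem_irrF.1 h4) ε (by rcases hε with rfl | rfl <;> norm_num), ?_⟩
        rw [dg_ext (mem_irrF.1 h4)]
        rw [← h5]; push_cast; ring
      · obtain ⟨⟨α, β⟩, h1, rfl⟩ := Finset.mem_image.1 h
        obtain ⟨h2, h3, h4, h5⟩ := hSm _ h1
        refine ⟨ind_mem h2 h3 h4, ?_⟩
        rw [dg_ind h2 h3, ← h5]; push_cast; ring
  have hdisj : Disjoint E I := by
    rw [Finset.disjoint_left]
    intro χ h1 h2
    obtain ⟨⟨ε, α⟩, h3, rfl⟩ := Finset.mem_image.1 h1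
    obtain ⟨h4, h5⟩ := Finset.mem_product.1 h3
    obtain ⟨⟨α', β'⟩, h6, h7⟩ := Finset.mem_image.1 h2
    exact ext_ne_ind (mem_irrF.1 (Finset.mem_filter.1 h5).1) (by simpa using h4) h7.symm
  have hTS : T.card = ((irrF M).filter (fun α => 4 * ((dg α : ℕ) : ZMod p) ^ 4 = x)).card +
      S.card := by
    rw [← Finset.card_filter_add_card_filter_not (s := T) (p := fun y => y.1 = y.2)]
    congr 1
    symm
    apply Finset.card_bij (fun α _ => (α, α))
    · intro α hα
      obtain ⟨h1, h2⟩ := Finset.mem_filter.1 hα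
      refine Finset.mem_filter.2 ⟨Finset.mem_filter.2 ⟨Finset.mem_product.2 ⟨h1, h1⟩, ?_⟩, rfl⟩
      rw [← h2]; ring
    · intro α _ β _ h
      exact (Prod.mk.inj h).1
    · rintro ⟨α, β⟩ h
      obtain ⟨h1, h2⟩ := Finset.mem_filter.1 h
      obtain ⟨h3, h4⟩ := Finset.mem_filter.1 h1
      obtain ⟨h5, h6⟩ := Finset.mem_product.1 h3
      change α = β at h2
      subst h2
      refine ⟨α, Finset.mem_filter.2 ⟨h5, ?_⟩, rfl⟩
      rw [← h4]; ring
  rw [hU, Finset.card_union_of_disjoint hdisj, hE, hTS]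
  omega

end

end Pool.Agent.TH798.MK
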