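import Pool.Agent.TH798.MK.Prod

/-!
Irreducible characters of degree `q` of the regular wreath product `A ≀ Q`, `A` finite abelian,
`|Q| = q` prime: all but few irreducible characters have degree `q`.
-/

set_option autoImplicit false
open CategoryTheory

namespace Pool.Agent.TH798.MK
open Pool.Agent.W367.SN

section wr
variable {A Q : Type} [CommGroup A] [Group Q] [Fintype Q] [DecidableEq Q]

/-- the character of the base group attached to a family of characters and `x` -/
noncomputable def Lam (l : Q → (A →* ℂˣ)) (x : Q) (f : Q → A) : ℂ :=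
  ∏ u, ((l u (f (x * u)) : ℂˣ) : ℂ)

omit [DecidableEq Q] in
theorem Lam_mul (l : Q → (A →* ℂˣ)) (x : Q) (f g : Q → A) :
    Lam l x (f * g) = Lam l x f * Lam l x g := by
  simp only [Lam, Pi.mul_apply, map_mul, Units.val_mul, Finset.prod_mul_distrib]

omit [DecidableEq Q] in
theorem Lam_shift (l : Q → (A →* ℂˣ)) (x s : Q) (g : Q → A) :
    Lam l x (fun y => g (s⁻¹ * y)) = Lam l (s⁻¹ * x) g := by
  simp only [Lam, mul_assoc]

omit [DecidableEq Q] in
theorem Lam_one (l : Q → (A →* ℂˣ)) (x : Q) : Lam l x 1 = 1 := by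
  simp [Lam]

/-- the monomial representation -/
noncomputable def rep (l : Q → (A →* ℂˣ)) : (A ≀ᵣ Q) →* Matrix Q Q ℂ where
  toFun w := fun x y => if x = w.right * y then Lam l x w.left else 0
  map_one' := by
    ext x y
    simp only [RegularWreathProduct.one_right, one_mul, RegularWreathProduct.one_left, Lam_one,
      Matrix.one_apply]
  map_mul' v w := by
    ext x z
    rw [Matrix.mul_apply, Finset.sum_eq_single (v.right⁻¹ * x)]
    · simp only [RegularWreathProduct.mul_right, RegularWreathProduct.mul_left, Lam_mul, Lam_shift,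
        mul_inv_cancel_left, if_true]
      by_cases h : x = v.right * w.right * z
      · have h' : v.right⁻¹ * x = w.right * z := by rw [h]; group
        rw [if_pos h, if_pos h']
      · have h' : ¬ v.right⁻¹ * x = w.right * z := by
          intro hh
          apply h
          rw [mul_assoc, ← hh]; group
        rw [if_neg h, if_neg h', mul_zero]
    · intro y _ hy
      have : ¬ x = v.right * y := by
        intro hh
        apply hy
        rw [hh]; group
      rw [if_neg this, zero_mul]
    · intro h; exact absurd (Finset.mem_univ _) h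

/-- its character -/
noncomputable def chi (l : Q → (A →* ℂˣ)) (w : A ≀ᵣ Q) : ℂ :=
  if w.right = 1 then ∑ x, Lam l x w.left else 0

theorem rep_trace (l : Q → (A →* ℂˣ)) (w : A ≀ᵣ Q) : (rep l w).trace = chi l w := by
  simp only [Matrix.trace, Matrix.diag, rep, MonoidHom.coe_mk, OneHom.coe_mk, chi]
  by_cases h : w.right = 1
  · simp [h]
  · have : ∀ x, ¬ x = w.right * x := by
      intro x hx
      apply h
      exact (mul_eq_right.1 hx.symm)
    simp [h, this]

theorem chi_one (l : Q → (A →* ℂˣ)) : chi l 1 = Fintype.card Q := by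
  simp [chi, Lam_one]

variable [Fintype A]

omit [DecidableEq Q] [Fintype A] in
theorem Lam_inv_mul (l : Q → (A →* ℂˣ)) (x : Q) (f : Q → A) :
    Lam l x f * Lam l x f⁻¹ = 1 := by
  rw [← Lam_mul, mul_inv_cancel, Lam_one]

/-- `f ↦ Lam l x f * Lam l' y f⁻¹` -/
noncomputable def D (l l' : Q → (A →* ℂˣ)) (x y : Q) : (Q → A) →* ℂ where
  toFun f := Lam l x f * Lam l' y f⁻¹
  map_one' := by simp [Lam_one]
  map_mul' f g := by rw [mul_inv, Lam_mul, Lam_mul]; ring

omit [Fintype A] in
theorem Lam_single (l : Q → (A →* ℂˣ)) (x v : Q) (a : A) :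
    Lam l x (Pi.mulSingle v a) = l (x⁻¹ * v) a := by
  rw [Lam, Finset.prod_eq_single (x⁻¹ * v)]
  · rw [mul_inv_cancel_left, Pi.mulSingle_eq_same]
  · intro u _ hu
    have : x * u ≠ v := by
      intro h; apply hu; rw [← h, inv_mul_cancel_left]
    rw [Pi.mulSingle_eq_of_ne this, map_one, Units.val_one]
  · intro h; exact absurd (Finset.mem_univ _) h

omit [Fintype A] in
theorem D_eq_one (l l' : Q → (A →* ℂˣ)) (x y : Q) (h : D l l' x y = 1) (v : Q) :
    l (x⁻¹ * v) = l' (y⁻¹ * v) := by
  ext a
  have h1 : D l l' x y (Pi.mulSingle v a) = 1 := by rw [h]; rfl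
  change Lam l x _ * Lam l' y _ = 1 at h1
  rw [← Pi.mulSingle_inv, Lam_single, Lam_single, map_inv, Units.val_inv_eq_inv_val] at h1
  exact (mul_inv_eq_one₀ (Units.ne_zero _)).1 h1

omit [Fintype A] in
theorem D_self (l : Q → (A →* ℂˣ)) (x : Q) : D l l x x = 1 :=
  MonoidHom.ext fun f => Lam_inv_mul l x f

instance : Fintype (A ≀ᵣ Q) := Fintype.ofEquiv _ (RegularWreathProduct.equivProd A Q).symm

theorem sum_wr (F : (A ≀ᵣ Q) → ℂ) : ∑ w, F w = ∑ f : Q → A, ∑ s : Q, F ⟨f, s⟩ := by
  rw [← Equiv.sum_comp (RegularWreathProduct.equivProd A Q).symm, Fintype.sum_prod_type]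
  rfl

theorem card_wr : Fintype.card (A ≀ᵣ Q) =
    Fintype.card A ^ Fintype.card Q * Fintype.card Q := by
  have := RegularWreathProduct.card (D := A) (Q := Q)
  simpa [Nat.card_eq_fintype_card] using this

theorem chi_pair (l l' : Q → (A →* ℂˣ)) :
    ∑ w, chi l w * chi l' w⁻¹ = ∑ x, ∑ y, ∑ f : Q → A, D l l' x y f := by
  rw [sum_wr]
  have h1 : ∀ f : Q → A, ∑ s : Q, chi l ⟨f, s⟩ * chi l' (⟨f, s⟩ : A ≀ᵣ Q)⁻¹ =
      ∑ x, ∑ y, D l l' x y f := by
    intro f
    rw [Finset.sum_eq_single 1]
    · have h2 : ((⟨f, 1⟩ : A ≀ᵣ Q)⁻¹).left = f⁻¹ := by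
        rw [RegularWreathProduct.inv_left]
        ext k
        simp
      have h3 : ((⟨f, 1⟩ : A ≀ᵣ Q)⁻¹).right = 1 := by
        rw [RegularWreathProduct.inv_right, inv_one]
      rw [chi, chi, if_pos rfl, if_pos h3, h2, Finset.sum_mul_sum]
      rfl
    · intro s _ hs
      rw [chi, if_neg hs, zero_mul]
    · intro h; exact absurd (Finset.mem_univ _) h
  rw [Finset.sum_congr rfl (fun f _ => h1 f), Finset.sum_comm]
  apply Finset.sum_congr rfl
  intro x _
  rw [Finset.sum_comm]

/-- no symmetry under nontrivial translations -/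
def Free (l : Q → (A →* ℂˣ)) : Prop := ∀ t : Q, (∀ v, l (t * v) = l v) → t = 1

theorem chi_mem (l : Q → (A →* ℂˣ)) (hl : Free l) : chi l ∈ IrrC (A ≀ᵣ Q) := by
  classical
  have h2 : (fun w => (rep l w).trace) = chi l := funext (rep_trace l)
  rw [← h2]
  apply mem_irr_of_matrix
  simp only [rep_trace]
  rw [chi_pair, card_wr]
  have h3 : ∀ x y : Q, ∑ f : Q → A, D l l x y f =
      if x = y then (Fintype.card A : ℂ) ^ Fintype.card Q else 0 := by
    intro x y
    by_cases h : x = y
    · subst h
      rw [D_self, if_pos rfl]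
      simp
    · rw [if_neg h]
      apply sum_hom_units_eq_zero
      intro hD
      have h4 := D_eq_one l l x y hD
      have h5 := hl (y⁻¹ * x) (fun v => by
        have := h4 (x * v)
        rw [inv_mul_cancel_left] at this
        rw [mul_assoc, this])
      exact h (inv_mul_eq_one.1 h5).symm
  simp only [h3]
  simp
  ring

theorem chi_eq (l l' : Q → (A →* ℂˣ)) (hl : Free l) (h : chi l = chi l') :
    ∃ t : Q, l' = fun u => l (t * u) := by
  classical
  by_contra hcon
  push Not at hcon
  have h1 : ∑ w, chi l w * chi l' w⁻¹ = (Fintype.card (A ≀ᵣ Q) : ℂ) := by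
    rw [← h]; exact irr_norm (chi_mem l hl)
  rw [chi_pair] at h1
  have h2 : ∀ x y : Q, ∑ f : Q → A, D l l' x y f = 0 := by
    intro x y
    apply sum_hom_units_eq_zero
    intro hD
    apply hcon (x⁻¹ * y)
    funext u
    have := D_eq_one l l' x y hD (y * u)
    rw [inv_mul_cancel_left] at this
    rw [← this, mul_assoc]
  simp only [h2, Finset.sum_const_zero] at h1
  have hc : (Fintype.card (A ≀ᵣ Q) : ℂ) ≠ 0 := by exact_mod_cast Fintype.card_ne_zero
  exact hc h1.symm

omit [Fintype A] [DecidableEq Q] in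
theorem const_of_not_free (hq : (Fintype.card Q).Prime) (l : Q → (A →* ℂˣ)) (hl : ¬ Free l)
    (x : Q) : l x = l 1 := by
  unfold Free at hl
  push Not at hl
  obtain ⟨t, ht, h1⟩ := hl
  let S : Subgroup Q :=
    { carrier := {t | ∀ v, l (t * v) = l v}
      one_mem' := fun v => by rw [one_mul]
      mul_mem' := fun {a b} ha hb v => by rw [mul_assoc, ha, hb]
      inv_mem' := fun {a} ha v => by
        have := ha (a⁻¹ * v)
        rw [mul_inv_cancel_left] at this
        exact this.symm }
  have hS : t ∈ S := ht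
  have hfact : Fact (Fintype.card Q).Prime := ⟨hq⟩
  have htop : Subgroup.zpowers t = ⊤ :=
    zpowers_eq_top_of_prime_card (p := Fintype.card Q) (Nat.card_eq_fintype_card) h1
  have hx : x ∈ S := by
    have : Subgroup.zpowers t ≤ S := by rwa [Subgroup.zpowers_le]
    apply this
    rw [htop]; trivial
  have := hx 1
  rwa [mul_one] at this

theorem many (hq : (Fintype.card Q).Prime) :
    Fintype.card A ^ Fintype.card Q ≤ Fintype.card A +
      Fintype.card Q * ((irrF (A ≀ᵣ Q)).filter (fun χ => dg χ = Fintype.card Q)).card := by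
  classical
  have hne : NeZero ((Monoid.exponent A : ℕ) : ℂ) :=
    ⟨by exact_mod_cast Monoid.exponent_ne_zero_of_finite⟩
  have hen : HasEnoughRootsOfUnity ℂ (Monoid.exponent A) := inferInstance
  have hfin : Fintype (A →* ℂˣ) := Fintype.ofFinite _
  have hcard : Fintype.card (A →* ℂˣ) = Fintype.card A := by
    have := CommGroup.card_monoidHom_of_hasEnoughRootsOfUnity A ℂ
    simpa [Nat.card_eq_fintype_card] using this
  have htot : (Finset.univ : Finset (Q → (A →* ℂˣ))).card = Fintype.card A ^ Fintype.card Q := by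
    rw [Finset.card_univ, Fintype.card_fun, hcard]
  have hsplit := Finset.card_filter_add_card_filter_not
    (s := (Finset.univ : Finset (Q → (A →* ℂˣ)))) (p := Free)
  have hnf : ((Finset.univ : Finset (Q → (A →* ℂˣ))).filter (fun l => ¬ Free l)).card ≤
      Fintype.card A := by
    rw [← hcard, ← Finset.card_univ]
    apply Finset.card_le_card_of_injOn (fun l => l 1)
    · intro l _; exact Finset.mem_coe.2 (Finset.mem_univ _)
    · intro l hl l' hl' h
      have hl1 := (Finset.mem_filter.1 (Finset.mem_coe.1 hl)).2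
      have hl2 := (Finset.mem_filter.1 (Finset.mem_coe.1 hl')).2
      funext x
      rw [const_of_not_free hq l hl1 x, const_of_not_free hq l' hl2 x]
      exact h
  have hfree : ((Finset.univ : Finset (Q → (A →* ℂˣ))).filter Free).card ≤
      Fintype.card Q * ((irrF (A ≀ᵣ Q)).filter (fun χ => dg χ = Fintype.card Q)).card := by
    apply Finset.card_le_mul_card_image_of_maps_to (f := chi)
    · intro l hl
      have hl1 := (Finset.mem_filter.1 hl).2
      exact Finset.mem_filter.2 ⟨mem_irrF.2 (chi_mem l hl1), dg_of (chi_one l)⟩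
    · intro b _
      by_cases hb : ∃ l0, Free l0 ∧ chi l0 = b
      · obtain ⟨l0, h0, rfl⟩ := hb
        have hsub : ((Finset.univ.filter Free).filter (fun l => chi l = chi l0)) ⊆
            Finset.univ.image (fun t : Q => (fun u => l0 (t * u))) := by
          intro l hl
          obtain ⟨t, ht⟩ := chi_eq l0 l h0 (Finset.mem_filter.1 hl).2.symm
          exact Finset.mem_image.2 ⟨t, Finset.mem_univ _, ht.symm⟩
        refine (Finset.card_le_card hsub).trans ?_
        refine Finset.card_image_le.trans ?_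
        rw [Finset.card_univ]
      · have : ((Finset.univ.filter Free).filter (fun l => chi l = b)) = ∅ := by
          apply Finset.filter_eq_empty_iff.2
          intro l hl h
          exact hb ⟨l, (Finset.mem_filter.1 hl).2, h⟩
        rw [this]; simp
  omega

theorem few (hq : (Fintype.card Q).Prime) :
    ((irrF (A ≀ᵣ Q)).filter (fun χ => ¬ dg χ = Fintype.card Q)).card ≤
      Fintype.card Q * Fintype.card A := by
  classical
  have h1 := many (A := A) (Q := Q) hq
  have h2 := sum_sq_nat (G := A ≀ᵣ Q)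
  rw [← Finset.sum_filter_add_sum_filter_not (irrF (A ≀ᵣ Q)) (fun χ => dg χ = Fintype.card Q),
    card_wr] at h2
  have h3 : ∑ χ ∈ (irrF (A ≀ᵣ Q)).filter (fun χ => dg χ = Fintype.card Q), dg χ ^ 2 =
      ((irrF (A ≀ᵣ Q)).filter (fun χ => dg χ = Fintype.card Q)).card * Fintype.card Q ^ 2 := by
    rw [Finset.sum_congr rfl (fun χ hχ => by rw [(Finset.mem_filter.1 hχ).2]), Finset.sum_const,
      smul_eq_mul]
  have h4 : ((irrF (A ≀ᵣ Q)).filter (fun χ => ¬ dg χ = Fintype.card Q)).card ≤
      ∑ χ ∈ (irrF (A ≀ᵣ Q)).filter (fun χ => ¬ dg χ = Fintype.card Q), dg χ ^ 2 := by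
    rw [Finset.card_eq_sum_ones]
    apply Finset.sum_le_sum
    intro χ hχ
    exact Nat.one_le_pow _ _ (dg_spec (mem_irrF.1 (Finset.mem_filter.1 hχ).1)).2
  rw [h3] at h2
  nlinarith [h1, h2, h4, Nat.mul_le_mul_left (Fintype.card Q) h1]

end wr

end Pool.Agent.TH798.MK
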